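import Mathlib

set_option autoImplicit false

open Set Filter Topology

namespace Pool.Agent.TH724.TC

/-! ## The canonical homeomorphism of a perfect compact subset of the Cantor space -/

/-- the Cantor space -/
abbrev C : Type := ℕ → Bool

/-- `x` leaves the path of another point of `P` at level `n` -/
def Spl (P : Set C) (x : C) (n : ℕ) : Prop := ∃ y ∈ P, (∀ i < n, y i = x i) ∧ y n ≠ x n

open Classical in
/-- the bits of `x` at its splitting levels -/
noncomputable def th (P : Set C) (x : C) (k : ℕ) : Bool := x (Nat.nth (Spl P x) k)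

/-- no isolated points -/
def NoIso (P : Set C) : Prop := ∀ x ∈ P, ∀ N, ∃ y ∈ P, y ≠ x ∧ ∀ i < N, y i = x i

section

variable {P : Set C}

lemma spl_congr {x x' : C} (hx : x ∈ P) (hx' : x' ∈ P) {n : ℕ} (h : ∀ i < n, x i = x' i) :
    Spl P x n ↔ Spl P x' n := by
  by_cases hn : x n = x' n
  · constructor
    · rintro ⟨y, hy, h1, h2⟩
      exact ⟨y, hy, fun i hi => (h1 i hi).trans (h i hi), by rwa [← hn]⟩
    · rintro ⟨y, hy, h1, h2⟩
      exact ⟨y, hy, fun i hi => (h1 i hi).trans (h i hi).symm, by rwa [hn]⟩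
  · constructor
    · intro _
      exact ⟨x, hx, h, hn⟩
    · intro _
      exact ⟨x', hx', fun i hi => (h i hi).symm, fun h' => hn h'.symm⟩

lemma exists_first {x y : C} (h : x ≠ y) : ∃ n, (∀ i < n, x i = y i) ∧ x n ≠ y n := by
  classical
  have h1 : ∃ n, x n ≠ y n := by
    by_contra hcon
    push Not at hcon
    exact h (funext hcon)
  exact ⟨Nat.find h1, fun i hi => by simpa using Nat.find_min h1 hi, Nat.find_spec h1⟩

lemma spl_infinite (hP : NoIso P) {x : C} (hx : x ∈ P) : (setOf (Spl P x)).Infinite := by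
  rw [Set.infinite_iff_exists_gt]
  intro N
  obtain ⟨y, hy, hne, h⟩ := hP x hx (N + 1)
  obtain ⟨n, h1, h2⟩ := exists_first hne
  refine ⟨n, ⟨y, hy, h1, h2⟩, ?_⟩
  by_contra hcon
  exact h2 (h n (by omega))

open Classical in
lemma count_congr {x x' : C} (hx : x ∈ P) (hx' : x' ∈ P) {n : ℕ} (h : ∀ i < n, x i = x' i) :
    Nat.count (Spl P x) n = Nat.count (Spl P x') n := by
  induction n with
  | zero => simp
  | succ n ih =>
    rw [Nat.count_succ, Nat.count_succ, ih fun i hi => h i (by omega)]
    have h1 := spl_congr hx hx' (n := n) fun i hi => h i (by omega)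
    simp only [h1]

open Classical in
lemma nth_eq_iff (hP : NoIso P) {x : C} (hx : x ∈ P) {k n : ℕ} :
    Nat.nth (Spl P x) k = n ↔ Spl P x n ∧ Nat.count (Spl P x) n = k := by
  constructor
  · rintro rfl
    exact ⟨Nat.nth_mem_of_infinite (spl_infinite hP hx) k, Nat.count_nth_of_infinite
      (spl_infinite hP hx) k⟩
  · rintro ⟨h1, rfl⟩
    exact Nat.nth_count h1

open Classical in
lemma nth_congr (hP : NoIso P) {x x' : C} (hx : x ∈ P) (hx' : x' ∈ P) {k : ℕ}
    (h : ∀ i < Nat.nth (Spl P x) k, x i = x' i) : Nat.nth (Spl P x') k = Nat.nth (Spl P x) k := by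
  rw [nth_eq_iff hP hx']
  have h1 := (nth_eq_iff hP hx (k := k)).1 rfl
  exact ⟨(spl_congr hx hx' h).1 h1.1, by rw [← count_congr hx hx' h]; exact h1.2⟩

lemma th_injOn (hP : NoIso P) : InjOn (th P) P := by
  classical
  intro x hx x' hx' h
  by_contra hne
  obtain ⟨n, h1, h2⟩ := exists_first hne
  have h3 : Spl P x n := ⟨x', hx', fun i hi => (h1 i hi).symm, fun h' => h2 h'.symm⟩
  have h4 : Nat.nth (Spl P x) (Nat.count (Spl P x) n) = n := Nat.nth_count h3
  have h5 : Nat.nth (Spl P x') (Nat.count (Spl P x) n) = n := by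
    have := nth_congr hP hx hx' (k := Nat.count (Spl P x) n) (by rw [h4]; exact h1)
    rw [this, h4]
  have h6 := congrFun h (Nat.count (Spl P x) n)
  unfold th at h6
  rw [h4, h5] at h6
  exact h2 h6

lemma th_local (hP : NoIso P) {x : C} (hx : x ∈ P) (k : ℕ) :
    ∃ N, ∀ x' ∈ P, (∀ i < N, x' i = x i) → th P x' k = th P x k := by
  classical
  refine ⟨Nat.nth (Spl P x) k + 1, fun x' hx' h => ?_⟩
  have h1 := nth_congr hP hx hx' (k := k) fun i hi => (h i (by omega)).symm
  unfold th
  rw [h1]
  exact h _ (by omega)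

lemma isOpen_agree (x : C) (N : ℕ) : IsOpen {x' : C | ∀ i < N, x' i = x i} := by
  have : {x' : C | ∀ i < N, x' i = x i} = ⋂ i ∈ Finset.range N, {z : C | z i = x i} := by
    ext z
    simp
  rw [this]
  refine isOpen_biInter_finset fun i _ => ?_
  have h3 : Continuous (fun z : C => z i) := continuous_apply i
  exact (isOpen_discrete ({x i} : Set Bool)).preimage h3

lemma exists_agree {U : Set C} (hU : IsOpen U) {x : C} (hx : x ∈ U) :
    ∃ N, ∀ x' : C, (∀ i < N, x' i = x i) → x' ∈ U := by
  obtain ⟨J, u, hu, hsub⟩ := isOpen_pi_iff.mp hU x hx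
  refine ⟨J.sup id + 1, fun z hz => hsub ?_⟩
  intro i hi
  have h1 : i ≤ J.sup id := Finset.le_sup (f := id) hi
  rw [hz i (by omega)]
  exact (hu i hi).2

lemma th_continuousOn (hP : NoIso P) : Continuous (fun x : P => th P x.1) := by
  refine continuous_pi fun k => ?_
  rw [continuous_iff_continuousAt]
  intro x
  obtain ⟨N, hN⟩ := th_local hP x.2 k
  have h1 : (fun x' : P => th P x'.1 k) =ᶠ[𝓝 x] fun _ => th P x.1 k := by
    have h2 : {x' : P | ∀ i < N, x'.1 i = x.1 i} ∈ 𝓝 x :=
      ((isOpen_agree x.1 N).preimage continuous_subtype_val).mem_nhds fun i _ => rfl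
    filter_upwards [h2] with x' hx'
    exact hN x'.1 x'.2 hx'
  exact (continuousAt_const).congr h1.symm

lemma th_dense (hP : NoIso P) (hne : P.Nonempty) (u : C) (K : ℕ) :
    ∃ x ∈ P, ∀ k < K, th P x k = u k := by
  classical
  induction K with
  | zero =>
    obtain ⟨x, hx⟩ := hne
    exact ⟨x, hx, fun k hk => by omega⟩
  | succ K ih =>
    obtain ⟨x, hx, h⟩ := ih
    by_cases hK : th P x K = u K
    · refine ⟨x, hx, fun k hk => ?_⟩
      rcases Nat.lt_succ_iff_lt_or_eq.1 hk with h1 | rfl
      · exact h k h1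
      · exact hK
    · have h1 : Spl P x (Nat.nth (Spl P x) K) :=
        Nat.nth_mem_of_infinite (spl_infinite hP hx) K
      obtain ⟨y, hy, h2, h3⟩ := h1
      have h4 : ∀ k ≤ K, Nat.nth (Spl P y) k = Nat.nth (Spl P x) k := by
        intro k hk
        apply nth_congr hP hx hy
        intro i hi
        refine (h2 i (lt_of_lt_of_le hi ?_)).symm
        exact (Nat.nth_monotone (spl_infinite hP hx)) hk
      refine ⟨y, hy, fun k hk => ?_⟩
      rcases Nat.lt_succ_iff_lt_or_eq.1 hk with h5 | rfl
      · rw [← h k h5]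
        unfold th
        rw [h4 k h5.le]
        apply h2
        exact (Nat.nth_strictMono (spl_infinite hP hx)) h5
      · have h5 : th P y k ≠ th P x k := by
          unfold th
          rw [h4 k le_rfl]
          exact h3
        revert h5 hK
        cases th P y k <;> cases th P x k <;> cases u k <;> simp

lemma th_surj (hPc : IsClosed P) (hP : NoIso P) (hne : P.Nonempty) :
    Function.Surjective (fun x : P => th P x.1) := by
  have hc : IsClosed (range fun x : P => th P x.1) := by
    have : CompactSpace P := isCompact_iff_compactSpace.1 hPc.isCompact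
    exact (isCompact_range (th_continuousOn hP)).isClosed
  intro u
  have : u ∈ closure (range fun x : P => th P x.1) := by
    rw [mem_closure_iff]
    intro U hU hu
    obtain ⟨N, hN⟩ := exists_agree hU hu
    obtain ⟨x, hx, h⟩ := th_dense hP hne u N
    exact ⟨_, hN _ h, ⟨⟨x, hx⟩, rfl⟩⟩
  rw [hc.closure_eq] at this
  exact this

/-- the canonical homeomorphism -/
noncomputable def canon (hPc : IsClosed P) (hP : NoIso P) (hne : P.Nonempty) : P ≃ₜ C := by
  haveI : CompactSpace P := isCompact_iff_compactSpace.1 hPc.isCompact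
  exact Continuous.homeoOfEquivCompactToT2 (f := Equiv.ofBijective (fun x : P => th P x.1)
    ⟨fun x x' h => Subtype.ext (th_injOn hP x.2 x'.2 h), th_surj hPc hP hne⟩) (th_continuousOn hP)

lemma canon_apply (hPc : IsClosed P) (hP : NoIso P) (hne : P.Nonempty) (x : P) :
    canon hPc hP hne x = th P x.1 := rfl

end

end Pool.Agent.TH724.TC
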