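import Mathlib

set_option autoImplicit false

open Set Filter Topology

namespace Pool.Agent.TH724.TC

/-! ## The transitive system of a graph -/

/-- The indices: a position and a symbol; the symbol `none` is the hub, `some v` is a vertex.
A configuration which has no symbol at a position has the symbol `∞` there. -/
abbrev I : Type := ℤ × Option ℕ

/-- the configurations of the graph `γ` -/
structure IsX (γ : ℕ → ℕ → Bool) (x : I → Bool) : Prop where
  one : ∀ n q q', x (n, q) = true → x (n, q') = true → q = q'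
  edge : ∀ n v w, x (n, some v) = true → x (n + 1, some w) = true → v = w ∨ γ v w = true
  two : ∀ i j : ℤ, i < j → (∀ l, i ≤ l → l ≤ j + 1 → x (l, none) = false) →
    ∀ v v', x (i, some v) = x (i + 1, some v) ∨ x (j, some v') = x (j + 1, some v')
  right : ∀ (b : ℤ) (m : ℕ), (∀ l, b - m ≤ l → l ≤ b → x (l, none) = false) →
    x (b + 1, none) = true → ∀ l, b + 1 ≤ l → l ≤ b + 1 + m → x (l, none) = true
  left : ∀ (b : ℤ) (m : ℕ), (∀ l, b ≤ l → l ≤ b + m → x (l, none) = false) →
    x (b - 1, none) = true → ∀ l, b - 1 - m ≤ l → l ≤ b - 1 → x (l, none) = true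

/-- the shift by `k` -/
def shZ (k : ℤ) (x : I → Bool) : I → Bool := fun p => x (p.1 + k, p.2)

lemma shZ_apply (k : ℤ) (x : I → Bool) (n : ℤ) (q : Option ℕ) : shZ k x (n, q) = x (n + k, q) := rfl

lemma shZ_add (k l : ℤ) (x : I → Bool) : shZ k (shZ l x) = shZ (k + l) x := by
  funext ⟨n, q⟩
  rw [shZ_apply, shZ_apply, shZ_apply, add_assoc]

lemma shZ_zero (x : I → Bool) : shZ 0 x = x := by
  funext ⟨n, q⟩
  rw [shZ_apply, add_zero]

lemma continuous_shZ (k : ℤ) : Continuous (shZ k) :=
  continuous_pi fun p => continuous_apply (A := fun _ : I => Bool) (p.1 + k, p.2)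

lemma IsX.shift {γ : ℕ → ℕ → Bool} {x : I → Bool} (h : IsX γ x) (k : ℤ) : IsX γ (shZ k x) := by
  refine ⟨?_, ?_, ?_, ?_, ?_⟩
  · intro n q q' h1 h2
    exact h.one _ _ _ h1 h2
  · intro n v w h1 h2
    rw [shZ_apply] at h1 h2
    exact h.edge (n + k) v w h1 (by rw [show n + k + 1 = n + 1 + k by ring]; exact h2)
  · intro i j hij h1 v v'
    simp only [shZ_apply]
    have := h.two (i + k) (j + k) (by omega) (fun l h2 h3 => by
      have := h1 (l - k) (by omega) (by omega)
      rw [shZ_apply] at this
      simpa using this) v v'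
    rw [show i + 1 + k = i + k + 1 by ring, show j + 1 + k = j + k + 1 by ring]
    exact this
  · intro b m h1 h2 l h3 h4
    rw [shZ_apply] at h2 ⊢
    refine h.right (b + k) m (fun l' h5 h6 => ?_) (by rw [show b + k + 1 = b + 1 + k by ring]; exact h2)
      _ (by omega) (by omega)
    have := h1 (l' - k) (by omega) (by omega)
    rw [shZ_apply] at this
    simpa using this
  · intro b m h1 h2 l h3 h4
    rw [shZ_apply] at h2 ⊢
    refine h.left (b + k) m (fun l' h5 h6 => ?_) (by rw [show b + k - 1 = b - 1 + k by ring]; exact h2)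
      _ (by omega) (by omega)
    have := h1 (l' - k) (by omega) (by omega)
    rw [shZ_apply] at this
    simpa using this

/-! ### Closedness -/

section Closed

variable {X : Type} [TopologicalSpace X]

lemma isClosed_imp' {A B : X → Prop} (hA : IsOpen {x | A x}) (hB : IsClosed {x | B x}) :
    IsClosed {x | A x → B x} := by
  have : {x | A x → B x} = {x | A x}ᶜ ∪ {x | B x} := by
    ext x
    change (A x → B x) ↔ (¬ A x ∨ B x)
    tauto
  rw [this]
  exact hA.isClosed_compl.union hB

lemma isClosed_all {ι : Sort*} {A : ι → X → Prop} (hA : ∀ i, IsClosed {x | A i x}) :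
    IsClosed {x | ∀ i, A i x} := by
  have : {x | ∀ i, A i x} = ⋂ i, {x | A i x} := by
    ext x
    simp only [mem_iInter]
    exact Iff.rfl
  rw [this]
  exact isClosed_iInter hA

lemma isOpen_interval {f : ℤ → X → Bool} (hf : ∀ l, Continuous (f l)) (a b : ℤ) :
    IsOpen {x | ∀ l, a ≤ l → l ≤ b → f l x = false} := by
  have : {x | ∀ l, a ≤ l → l ≤ b → f l x = false} = ⋂ l ∈ Finset.Icc a b, {x | f l x = false} := by
    ext x
    simp only [mem_iInter, Finset.mem_Icc]
    exact ⟨fun h l hl => h l hl.1 hl.2, fun h l h1 h2 => h l ⟨h1, h2⟩⟩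
  rw [this]
  refine isOpen_biInter_finset fun l _ => ?_
  exact (isOpen_discrete ({false} : Set Bool)).preimage (hf l)

lemma isClopen_eq {f : X → Bool} (hf : Continuous f) (b : Bool) : IsClopen {x | f x = b} :=
  (isClopen_discrete ({b} : Set Bool)).preimage hf

lemma isClopen_eq' {f g : X → Bool} (hf : Continuous f) (hg : Continuous g) :
    IsClopen {x | f x = g x} :=
  (isClopen_discrete ({p | p.1 = p.2} : Set (Bool × Bool))).preimage (hf.prodMk hg)

end Closed

theorem isClosed_isX : IsClosed {p : (ℕ → ℕ → Bool) × (I → Bool) | IsX p.1 p.2} := by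
  have hx : ∀ i : I, Continuous (fun p : (ℕ → ℕ → Bool) × (I → Bool) => p.2 i) := fun i =>
    (continuous_apply i).comp continuous_snd
  have hg : ∀ v w : ℕ, Continuous (fun p : (ℕ → ℕ → Bool) × (I → Bool) => p.1 v w) := fun v w => by
    fun_prop
  have : {p : (ℕ → ℕ → Bool) × (I → Bool) | IsX p.1 p.2} =
      {p | ∀ n q q', p.2 (n, q) = true → p.2 (n, q') = true → q = q'} ∩
      ({p | ∀ n v w, p.2 (n, some v) = true → p.2 (n + 1, some w) = true → v = w ∨ p.1 v w = true} ∩
      ({p | ∀ i j : ℤ, i < j → (∀ l, i ≤ l → l ≤ j + 1 → p.2 (l, none) = false) →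
        ∀ v v', p.2 (i, some v) = p.2 (i + 1, some v) ∨ p.2 (j, some v') = p.2 (j + 1, some v')} ∩
      ({p | ∀ (b : ℤ) (m : ℕ), (∀ l, b - m ≤ l → l ≤ b → p.2 (l, none) = false) →
        p.2 (b + 1, none) = true → ∀ l, b + 1 ≤ l → l ≤ b + 1 + m → p.2 (l, none) = true} ∩
      {p | ∀ (b : ℤ) (m : ℕ), (∀ l, b ≤ l → l ≤ b + m → p.2 (l, none) = false) →
        p.2 (b - 1, none) = true → ∀ l, b - 1 - m ≤ l → l ≤ b - 1 → p.2 (l, none) = true}))) := by
    ext p
    constructor
    · intro h
      exact ⟨h.one, h.edge, h.two, h.right, h.left⟩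
    · rintro ⟨h1, h2, h3, h4, h5⟩
      exact ⟨h1, h2, h3, h4, h5⟩
  rw [this]
  refine IsClosed.inter ?_ (IsClosed.inter ?_ (IsClosed.inter ?_ (IsClosed.inter ?_ ?_)))
  · refine isClosed_all fun n => isClosed_all fun q => isClosed_all fun q' => ?_
    refine isClosed_imp' (isClopen_eq (hx _) true).isOpen ?_
    refine isClosed_imp' (isClopen_eq (hx _) true).isOpen ?_
    exact isClosed_const
  · refine isClosed_all fun n => isClosed_all fun v => isClosed_all fun w => ?_
    refine isClosed_imp' (isClopen_eq (hx _) true).isOpen ?_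
    refine isClosed_imp' (isClopen_eq (hx _) true).isOpen ?_
    exact isClosed_const.union (isClopen_eq (hg v w) true).isClosed
  · refine isClosed_all fun i => isClosed_all fun j => isClosed_all fun _ => ?_
    refine isClosed_imp' (isOpen_interval (fun l => hx (l, none)) _ _) ?_
    refine isClosed_all fun v => isClosed_all fun v' => ?_
    exact (isClopen_eq' (hx _) (hx _)).isClosed.union (isClopen_eq' (hx _) (hx _)).isClosed
  · refine isClosed_all fun b => isClosed_all fun m => ?_
    refine isClosed_imp' (isOpen_interval (fun l => hx (l, none)) _ _) ?_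
    refine isClosed_imp' (isClopen_eq (hx _) true).isOpen ?_
    refine isClosed_all fun l => isClosed_all fun _ => isClosed_all fun _ => ?_
    exact (isClopen_eq (hx _) true).isClosed
  · refine isClosed_all fun b => isClosed_all fun m => ?_
    refine isClosed_imp' (isOpen_interval (fun l => hx (l, none)) _ _) ?_
    refine isClosed_imp' (isClopen_eq (hx _) true).isOpen ?_
    refine isClosed_all fun l => isClosed_all fun _ => isClosed_all fun _ => ?_
    exact (isClopen_eq (hx _) true).isClosed

/-! ### Truncation and gluing -/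

/-- replace all symbols outside `[-M, M]` by the hub -/
def trunc (M : ℤ) (x : I → Bool) : I → Bool :=
  fun p => if -M ≤ p.1 ∧ p.1 ≤ M then x p else decide (p.2 = none)

lemma trunc_in {M : ℤ} {x : I → Bool} {n : ℤ} {q : Option ℕ} (h : -M ≤ n ∧ n ≤ M) :
    trunc M x (n, q) = x (n, q) := by simp [trunc, h]

lemma trunc_out {M : ℤ} {x : I → Bool} {n : ℤ} {q : Option ℕ} (h : ¬ (-M ≤ n ∧ n ≤ M)) :
    trunc M x (n, q) = decide (q = none) := by simp [trunc, h]

/-- the support is contained in `[-M, M]` -/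
def Supp (M : ℤ) (x : I → Bool) : Prop := ∀ n, ¬ (-M ≤ n ∧ n ≤ M) → ∀ q, x (n, q) = decide (q = none)

lemma supp_trunc (M : ℤ) (x : I → Bool) : Supp M (trunc M x) := fun _ h _ => trunc_out h

lemma IsX.trunc {γ : ℕ → ℕ → Bool} {x : I → Bool} (h : IsX γ x) (M : ℤ) : IsX γ (trunc M x) := by
  have hin : ∀ n, TC.trunc M x (n, none) = false → (-M ≤ n ∧ n ≤ M) ∧ x (n, none) = false := by
    intro n hn
    by_cases h1 : -M ≤ n ∧ n ≤ M
    · rw [trunc_in h1] at hn
      exact ⟨h1, hn⟩
    · rw [trunc_out h1] at hn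
      simp at hn
  have hin' : ∀ n v, TC.trunc M x (n, some v) = true → (-M ≤ n ∧ n ≤ M) ∧ x (n, some v) = true := by
    intro n v hn
    by_cases h1 : -M ≤ n ∧ n ≤ M
    · rw [trunc_in h1] at hn
      exact ⟨h1, hn⟩
    · rw [trunc_out h1] at hn
      simp at hn
  refine ⟨?_, ?_, ?_, ?_, ?_⟩
  · intro n q q' h1 h2
    by_cases h3 : -M ≤ n ∧ n ≤ M
    · rw [trunc_in h3] at h1 h2
      exact h.one _ _ _ h1 h2
    · rw [trunc_out h3] at h1 h2
      simp only [decide_eq_true_eq] at h1 h2
      rw [h1, h2]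
  · intro n v w h1 h2
    exact h.edge n v w (hin' _ _ h1).2 (hin' _ _ h2).2
  · intro i j hij h1 v v'
    have h2 := (hin i (h1 i le_rfl (by omega))).1
    have h3 := (hin (j + 1) (h1 (j + 1) (by omega) le_rfl)).1
    rw [trunc_in h2, trunc_in (by omega : -M ≤ i + 1 ∧ i + 1 ≤ M),
      trunc_in (by omega : -M ≤ j ∧ j ≤ M), trunc_in h3]
    exact h.two i j hij (fun l h4 h5 => (hin l (h1 l h4 h5)).2) v v'
  · intro b m h1 h2 l h3 h4
    by_cases hl : -M ≤ l ∧ l ≤ M
    · have h5 := (hin b (h1 b (by omega) le_rfl)).1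
      rw [trunc_in hl]
      rw [trunc_in (by omega : -M ≤ b + 1 ∧ b + 1 ≤ M)] at h2
      exact h.right b m (fun l' h6 h7 => (hin l' (h1 l' h6 h7)).2) h2 l h3 h4
    · rw [trunc_out hl]
      simp
  · intro b m h1 h2 l h3 h4
    by_cases hl : -M ≤ l ∧ l ≤ M
    · have h5 := (hin b (h1 b le_rfl (by omega))).1
      rw [trunc_in hl]
      rw [trunc_in (by omega : -M ≤ b - 1 ∧ b - 1 ≤ M)] at h2
      exact h.left b m (fun l' h6 h7 => (hin l' (h1 l' h6 h7)).2) h2 l h3 h4
    · rw [trunc_out hl]
      simp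

/-- glue `x` and a far translate of `y` -/
def comb (M : ℤ) (x y : I → Bool) : I → Bool :=
  fun p => if p.1 ≤ 5 * M + 5 then x p else y (p.1 - (10 * M + 10), p.2)

lemma comb_left {M : ℤ} {x y : I → Bool} {n : ℤ} {q : Option ℕ} (h : n ≤ 5 * M + 5) :
    comb M x y (n, q) = x (n, q) := by simp [comb, h]

lemma comb_right {M : ℤ} {x y : I → Bool} {n : ℤ} {q : Option ℕ} (h : ¬ n ≤ 5 * M + 5) :
    comb M x y (n, q) = y (n - (10 * M + 10), q) := by simp [comb, h]

lemma IsX.comb {γ : ℕ → ℕ → Bool} {x y : I → Bool} (hx : IsX γ x) (hy : IsX γ y) {M : ℤ}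
    (hM : 0 ≤ M) (sx : Supp M x) (sy : Supp M y) : IsX γ (comb M x y) := by
  have hx0 : ∀ n, x (n, none) = false → -M ≤ n ∧ n ≤ M := by
    intro n hn
    by_contra h1
    rw [sx n h1] at hn
    simp at hn
  have hy0 : ∀ n, y (n, none) = false → -M ≤ n ∧ n ≤ M := by
    intro n hn
    by_contra h1
    rw [sy n h1] at hn
    simp at hn
  -- the positions which are not the hub
  have hz : ∀ n, TC.comb M x y (n, none) = false →
      ((-M ≤ n ∧ n ≤ M) ∧ x (n, none) = false) ∨
      ((9 * M + 10 ≤ n ∧ n ≤ 11 * M + 10) ∧ y (n - (10 * M + 10), none) = false) := by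
    intro n hn
    by_cases h1 : n ≤ 5 * M + 5
    · rw [comb_left h1] at hn
      exact Or.inl ⟨hx0 n hn, hn⟩
    · rw [comb_right h1] at hn
      have := hy0 _ hn
      exact Or.inr ⟨by omega, hn⟩
  refine ⟨?_, ?_, ?_, ?_, ?_⟩
  · intro n q q' h1 h2
    by_cases h3 : n ≤ 5 * M + 5
    · rw [comb_left h3] at h1 h2
      exact hx.one _ _ _ h1 h2
    · rw [comb_right h3] at h1 h2
      exact hy.one _ _ _ h1 h2
  · intro n v w h1 h2
    by_cases h3 : n + 1 ≤ 5 * M + 5
    · rw [comb_left (by omega)] at h1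
      rw [comb_left h3] at h2
      exact hx.edge n v w h1 h2
    · by_cases h4 : n ≤ 5 * M + 5
      · rw [comb_left h4, sx n (by omega)] at h1
        simp at h1
      · rw [comb_right h4] at h1
        rw [comb_right h3] at h2
        exact hy.edge (n - (10 * M + 10)) v w h1
          (by rw [show n - (10 * M + 10) + 1 = n + 1 - (10 * M + 10) by ring]; exact h2)
  · intro i j hij h1 v v'
    have hhub : ¬ (i ≤ 5 * M + 5 ∧ 5 * M + 5 ≤ j + 1) := by
      rintro ⟨h2, h3⟩
      rcases hz _ (h1 (5 * M + 5) h2 h3) with h4 | h4 <;> omega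
    by_cases h2 : i ≤ 5 * M + 5
    · have h3 : j + 1 ≤ 5 * M + 5 := by omega
      rw [comb_left h2, comb_left (by omega), comb_left (by omega), comb_left h3]
      refine hx.two i j hij (fun l h4 h5 => ?_) v v'
      have := h1 l h4 h5
      rwa [comb_left (by omega)] at this
    · rw [comb_right h2, comb_right (by omega), comb_right (by omega), comb_right (by omega)]
      have := hy.two (i - (10 * M + 10)) (j - (10 * M + 10)) (by omega) (fun l h4 h5 => ?_) v v'
      · rw [show i + 1 - (10 * M + 10) = i - (10 * M + 10) + 1 by ring,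
          show j + 1 - (10 * M + 10) = j - (10 * M + 10) + 1 by ring]
        exact this
      · have h6 := h1 (l + (10 * M + 10)) (by omega) (by omega)
        rw [comb_right (by omega)] at h6
        simpa using h6
  · intro b m h1 h2 l h3 h4
    have hhub : ¬ (b - m ≤ 5 * M + 5 ∧ 5 * M + 5 ≤ b) := by
      rintro ⟨h5, h6⟩
      rcases hz _ (h1 (5 * M + 5) h5 h6) with h7 | h7 <;> omega
    by_cases hb : b < 5 * M + 5
    · -- the block lies on the left
      have e1 : ∀ l', b - m ≤ l' → l' ≤ b → x (l', none) = false := by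
        intro l' h5 h6
        have := h1 l' h5 h6
        rwa [comb_left (by omega)] at this
      have e2 := hx0 b (e1 b (by omega) le_rfl)
      have e3 := hx0 (b - m) (e1 (b - m) le_rfl (by omega))
      rw [comb_left (by omega)] at h2 ⊢
      exact hx.right b m e1 h2 l h3 h4
    · have hb' : 5 * M + 5 < b - m := by omega
      rw [comb_right (by omega)] at h2 ⊢
      refine hy.right (b - (10 * M + 10)) m (fun l' h5 h6 => ?_)
        (by rw [show b - (10 * M + 10) + 1 = b + 1 - (10 * M + 10) by ring]; exact h2) _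
        (by omega) (by omega)
      have h7 := h1 (l' + (10 * M + 10)) (by omega) (by omega)
      rw [comb_right (by omega)] at h7
      simpa using h7
  · intro b m h1 h2 l h3 h4
    have hhub : ¬ (b ≤ 5 * M + 5 ∧ 5 * M + 5 ≤ b + m) := by
      rintro ⟨h5, h6⟩
      rcases hz _ (h1 (5 * M + 5) h5 h6) with h7 | h7 <;> omega
    by_cases hb : b ≤ 5 * M + 5
    · have e1 : ∀ l', b ≤ l' → l' ≤ b + m → x (l', none) = false := by
        intro l' h5 h6
        have := h1 l' h5 h6
        rwa [comb_left (by omega)] at this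
      rw [comb_left (by omega)] at h2 ⊢
      exact hx.left b m e1 h2 l h3 h4
    · have e1 : ∀ l', b ≤ l' → l' ≤ b + m → y (l' - (10 * M + 10), none) = false := by
        intro l' h5 h6
        have := h1 l' h5 h6
        rwa [comb_right (by omega)] at this
      have e2 := hy0 _ (e1 b le_rfl (by omega))
      have e3 := hy0 _ (e1 (b + m) (by omega) le_rfl)
      rw [comb_right (by omega)] at h2 ⊢
      refine hy.left (b - (10 * M + 10)) m (fun l' h5 h6 => ?_)
        (by rw [show b - (10 * M + 10) - 1 = b - 1 - (10 * M + 10) by ring]; exact h2) _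
        (by omega) (by omega)
      have := e1 (l' + (10 * M + 10)) (by omega) (by omega)
      simpa using this

/-- one vertex symbol at the origin -/
def single (v : ℕ) : I → Bool := fun p => decide (p.2 = if p.1 = 0 then some v else none)

lemma single_zero (v : ℕ) (q : Option ℕ) : single v (0, q) = decide (q = some v) := by
  simp [single]

lemma single_ne (v : ℕ) {n : ℤ} (h : n ≠ 0) (q : Option ℕ) : single v (n, q) = decide (q = none) := by
  simp [single, h]

lemma isX_single (γ : ℕ → ℕ → Bool) (v : ℕ) : IsX γ (single v) := by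
  have h0 : ∀ n, single v (n, none) = false → n = 0 := by
    intro n hn
    by_contra h
    rw [single_ne v h] at hn
    simp at hn
  refine ⟨?_, ?_, ?_, ?_, ?_⟩
  · intro n q q' h1 h2
    simp only [single, decide_eq_true_eq] at h1 h2
    rw [h1, h2]
  · intro n v' w h1 h2
    by_cases hn : n = 0
    · rw [single_ne v (by omega)] at h2
      simp at h2
    · rw [single_ne v hn] at h1
      simp at h1
  · intro i j hij h1 v' v''
    have h2 := h0 i (h1 i le_rfl (by omega))
    have h3 := h0 (j + 1) (h1 (j + 1) (by omega) le_rfl)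
    omega
  · intro b m h1 h2 l h3 h4
    have h5 := h0 b (h1 b (by omega) le_rfl)
    have h6 := h0 (b - m) (h1 (b - m) le_rfl (by omega))
    rw [single_ne v (by omega)]
    simp
  · intro b m h1 h2 l h3 h4
    have h5 := h0 b (h1 b le_rfl (by omega))
    rw [single_ne v (by omega)]
    simp

lemma supp_single (v : ℕ) {M : ℤ} (hM : 0 ≤ M) : Supp M (single v) := by
  intro n hn q
  exact single_ne v (by omega) q

end Pool.Agent.TH724.TC
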