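import Mathlib
import Pool.Agent.TH724.TC.Sys

set_option autoImplicit false

open Set Filter Topology

namespace Pool.Agent.TH724.TC

/-! ## Recovering the graph from the system -/

/-- the constant configuration -/
def cst (q : Option ℕ) : I → Bool := fun p => decide (p.2 = q)

/-- the constant configuration `∞` -/
def cinf : I → Bool := fun _ => false

lemma cst_apply (q : Option ℕ) (n : ℤ) (r : Option ℕ) : cst q (n, r) = decide (r = q) := rfl

lemma isX_hub (γ : ℕ → ℕ → Bool) : IsX γ (cst none) := by
  refine ⟨?_, ?_, ?_, ?_, ?_⟩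
  · intro n q q' h1 h2
    simp only [cst, decide_eq_true_eq] at h1 h2
    rw [h1, h2]
  · intro n v w h1 _
    simp [cst] at h1
  · intro i j hij h1
    have := h1 i le_rfl (by omega)
    simp [cst] at this
  · intro b m _ _ l _ _
    simp [cst]
  · intro b m _ _ l _ _
    simp [cst]

lemma isX_vertex (γ : ℕ → ℕ → Bool) (v : ℕ) : IsX γ (cst (some v)) := by
  refine ⟨?_, ?_, ?_, ?_, ?_⟩
  · intro n q q' h1 h2
    simp only [cst, decide_eq_true_eq] at h1 h2
    rw [h1, h2]
  · intro n v' w h1 h2
    simp only [cst, decide_eq_true_eq] at h1 h2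
    left
    rw [← h2] at h1
    simpa using h1
  · intro i j _ _ v' v''
    exact Or.inl rfl
  · intro b m _ h2
    simp [cst] at h2
  · intro b m _ h2
    simp [cst] at h2

lemma isX_inf (γ : ℕ → ℕ → Bool) : IsX γ cinf := by
  refine ⟨?_, ?_, ?_, ?_, ?_⟩
  · intro n q q' h1
    simp [cinf] at h1
  · intro n v' w h1
    simp [cinf] at h1
  · intro i j _ _ v' v''
    exact Or.inl rfl
  · intro b m _ h2
    simp [cinf] at h2
  · intro b m _ h2
    simp [cinf] at h2

/-- the heteroclinic configuration -/
def het (v w : ℕ) : I → Bool := fun p => decide (p.2 = some (if p.1 < 0 then v else w))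

lemma isX_het {γ : ℕ → ℕ → Bool} {v w : ℕ} (h : γ v w = true) : IsX γ (het v w) := by
  refine ⟨?_, ?_, ?_, ?_, ?_⟩
  · intro n q q' h1 h2
    simp only [het, decide_eq_true_eq] at h1 h2
    rw [h1, h2]
  · intro n v' w' h1 h2
    simp only [het, decide_eq_true_eq, Option.some.injEq] at h1 h2
    split_ifs at h1 h2
    · left; rw [h1, h2]
    · right; rw [h1, h2]; exact h
    · exfalso; omega
    · left; rw [h1, h2]
  · intro i j hij _ v' v''
    simp only [het]
    by_cases h1 : i = -1
    · right
      have h2 : ¬ j < 0 := by omega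
      have h3 : ¬ j + 1 < 0 := by omega
      simp [h2, h3]
    · left
      by_cases h2 : i < 0
      · have h3 : i + 1 < 0 := by omega
        simp [h2, h3]
      · have h3 : ¬ i + 1 < 0 := by omega
        simp [h2, h3]
  · intro b m _ h2
    simp [het] at h2
  · intro b m _ h2
    simp [het] at h2

lemma const_of_step {f : ℤ → Bool} {a b : ℤ} (hab : a ≤ b) (h : ∀ j, a ≤ j → j < b → f j = f (j + 1)) :
    f a = f b := by
  induction b, hab using Int.leInduction with
  | base => rfl
  | succ n hn ih =>
    rw [ih fun j h1 h2 => h j h1 (by omega)]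
    exact h n hn (by omega)

/-- The analysis of the points which are asymptotic to vertices in both directions. -/
theorem analysis {γ : ℕ → ℕ → Bool} {x : I → Bool} (h : IsX γ x) {v w : ℕ} {N : ℤ}
    (hv : ∀ n, n ≤ -N → x (n, some v) = true) (hw : ∀ n, N ≤ n → x (n, some w) = true) :
    (v = w ∧ x = cst (some v)) ∨ γ v w = true := by
  have hval : ∀ n q, x (n, q) = true → ∀ q', x (n, q') = decide (q' = q) := by
    intro n q hq q'
    by_cases h1 : q' = q
    · rw [h1, hq]; simp
    · rw [decide_eq_false h1]
      by_contra h2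
      rw [Bool.not_eq_false] at h2
      exact h1 (h.one n _ _ h2 hq)
  -- there is no hub
  have hnh : ∀ j, x (j, none) = false := by
    intro j
    by_contra hj
    rw [Bool.not_eq_false] at hj
    obtain ⟨j0, hj0, hleast⟩ := Int.exists_least_of_bdd (P := fun j => x (j, none) = true)
      ⟨-N, fun z hz => by
        by_contra h1
        have := h.one z _ _ (hv z (by omega)) hz
        simp at this⟩ ⟨j, hj⟩
    have h1 := h.right (j0 - 1) (max N j0 - j0).toNat (fun l _ h3 => by
      by_contra h4
      rw [Bool.not_eq_false] at h4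
      have := hleast l h4
      omega) (by simpa using hj0) (max N j0) (by omega) (by omega)
    have := h.one _ _ _ h1 (hw _ (le_max_left _ _))
    simp at this
  have two : ∀ i j : ℤ, i < j → ∀ v v', x (i, some v) = x (i + 1, some v) ∨
      x (j, some v') = x (j + 1, some v') := fun i j hij => h.two i j hij fun l _ _ => hnh l
  by_cases hall : ∀ i u, x (i, some u) = x (i + 1, some u)
  · left
    have h1 : ∀ n, x (n, some v) = true := by
      intro n
      rcases le_total n (-N) with h2 | h2
      · exact hv n h2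
      · rw [← const_of_step (f := fun j => x (j, some v)) h2 fun j _ _ => hall j v]
        exact hv _ le_rfl
    have h2 : v = w := by
      have := h.one _ _ _ (h1 N) (hw N le_rfl)
      simpa using this
    refine ⟨h2, ?_⟩
    funext ⟨n, q⟩
    rw [hval n _ (h1 n), cst_apply]
  · push Not at hall
    obtain ⟨i, u, hiu⟩ := hall
    have hgt : ∀ j, i < j → ∀ v', x (j, some v') = x (j + 1, some v') := by
      intro j hj v'
      rcases two i j hj u v' with h1 | h1
      · exact absurd h1 hiu
      · exact h1
    have hlt : ∀ j, j < i → ∀ v', x (j, some v') = x (j + 1, some v') := by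
      intro j hj v'
      rcases two j i hj v' u with h1 | h1
      · exact h1
      · exact absurd h1 hiu
    have e1 : x (i, some v) = true := by
      rcases le_total i (-N) with h2 | h2
      · exact hv i h2
      · rw [← const_of_step (f := fun j => x (j, some v)) h2 fun j _ h3 => hlt j h3 v]
        exact hv _ le_rfl
    have e2 : x (i + 1, some w) = true := by
      rcases le_total N (i + 1) with h2 | h2
      · exact hw _ h2
      · rw [const_of_step (f := fun j => x (j, some w)) h2 fun j h3 _ => hgt j (by omega) w]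
        exact hw _ le_rfl
    rcases h.edge i v w e1 e2 with h1 | h1
    · exfalso
      subst h1
      apply hiu
      rw [hval _ _ e1, hval _ _ e2]
    · exact Or.inr h1

/-! ### Systems -/

/-- the space of the configurations of `γ` -/
abbrev XS (γ : ℕ → ℕ → Bool) : Type := {x : I → Bool // IsX γ x}

/-- the shift on the space of configurations -/
def shX {γ : ℕ → ℕ → Bool} (k : ℤ) (x : XS γ) : XS γ := ⟨shZ k x.1, x.2.shift k⟩

lemma shX_add {γ : ℕ → ℕ → Bool} (k l : ℤ) (x : XS γ) : shX k (shX l x) = shX (k + l) x :=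
  Subtype.ext (shZ_add k l x.1)

lemma shX_zero {γ : ℕ → ℕ → Bool} (x : XS γ) : shX 0 x = x := Subtype.ext (shZ_zero x.1)

lemma equivariant {γ γ' : ℕ → ℕ → Bool} {h : XS γ → XS γ'} (hh : ∀ x, h (shX 1 x) = shX 1 (h x))
    (k : ℤ) (x : XS γ) : h (shX k x) = shX k (h x) := by
  induction k using Int.induction_on generalizing x with
  | zero => rw [shX_zero, shX_zero]
  | succ n ih =>
    rw [← shX_add, ih, hh, shX_add]
  | pred n ih =>
    have h1 : shX 1 (h (shX (-(n : ℤ) - 1) x)) = shX 1 (shX (-(n : ℤ) - 1) (h x)) := by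
      rw [← hh, shX_add, shX_add, show 1 + (-(n : ℤ) - 1) = -(n : ℤ) by ring, ih]
    have h2 := congrArg (shX (-1)) h1
    rw [shX_add, shX_add, show (-1 : ℤ) + 1 = 0 by norm_num, shX_zero, shX_zero] at h2
    exact h2

lemma fixed_cases {γ : ℕ → ℕ → Bool} {x : I → Bool} (hx : IsX γ x) (h : shZ 1 x = x) :
    x = cinf ∨ ∃ q, x = cst q := by
  have h0 : ∀ n q, x (n, q) = x (n + 1, q) := by
    intro n q
    have := congrFun h (n, q)
    rw [shZ_apply] at this
    exact this.symm
  have h1 : ∀ n q, x (n, q) = x (0, q) := by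
    intro n q
    rcases le_total n 0 with h2 | h2
    · exact const_of_step (f := fun j => x (j, q)) h2 fun j _ _ => h0 j q
    · exact (const_of_step (f := fun j => x (j, q)) h2 fun j _ _ => h0 j q).symm
  by_cases h2 : ∃ q, x (0, q) = true
  · obtain ⟨q, hq⟩ := h2
    right
    refine ⟨q, ?_⟩
    funext ⟨n, r⟩
    rw [h1, cst_apply]
    by_cases h3 : r = q
    · rw [h3, hq]; simp
    · rw [decide_eq_false h3]
      by_contra h4
      rw [Bool.not_eq_false] at h4
      exact h3 (hx.one 0 _ _ h4 hq)
  · left
    push Not at h2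
    funext ⟨n, r⟩
    rw [h1]
    exact eq_false_of_ne_true (h2 r)

lemma tendsto_config {ι : Type} {l : Filter ι} {f : ι → I → Bool} {y : I → Bool}
    (h : ∀ p, ∀ᶠ i in l, f i p = y p) : Tendsto f l (𝓝 y) := by
  rw [tendsto_pi_nhds]
  intro p
  exact tendsto_const_nhds.congr' ((h p).mono fun i hi => hi.symm)

lemma eventually_config {ι : Type} {l : Filter ι} {f : ι → I → Bool} {y : I → Bool}
    (h : Tendsto f l (𝓝 y)) (p : I) : ∀ᶠ i in l, f i p = y p := by
  rw [tendsto_pi_nhds] at h
  exact (h p) ((isOpen_discrete ({y p} : Set Bool)).mem_nhds rfl)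

section

variable {γ γ' : ℕ → ℕ → Bool}

/-- the vertex fixed points are mapped to vertex fixed points -/
theorem vertex_to_vertex (hirr : ∀ v, γ v v = false) (h : XS γ ≃ₜ XS γ') (hh : ∀ x, h (shX 1 x) = shX 1 (h x)) (v : ℕ) :
    ∃ w, h ⟨cst (some v), isX_vertex γ v⟩ = ⟨cst (some w), isX_vertex γ' w⟩ := by
  set pv : XS γ := ⟨cst (some v), isX_vertex γ v⟩ with hpv
  have hh' : ∀ y, h.symm (shX 1 y) = shX 1 (h.symm y) := by
    intro y
    rw [Homeomorph.symm_apply_eq, hh, h.apply_symm_apply]
  have hfix : shX 1 (h pv) = h pv := by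
    rw [← hh]
    congr 1
  rcases fixed_cases (h pv).2 (congrArg Subtype.val hfix) with h1 | ⟨q, h1⟩
  · -- not `∞`
    exfalso
    let y : ℕ → XS γ' := fun w => ⟨cst (some w), isX_vertex γ' w⟩
    have h2 : Tendsto y atTop (𝓝 (h pv)) := by
      rw [tendsto_subtype_rng, h1]
      apply tendsto_config
      rintro ⟨n, r⟩
      rcases r with _ | r
      · exact Eventually.of_forall fun w => by simp [y, cst, cinf]
      · filter_upwards [eventually_gt_atTop r] with w hw
        simp only [y, cst, cinf, decide_eq_false_iff_not, Option.some.injEq]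
        omega
    have h3 : Tendsto (fun w => (h.symm (y w)).1) atTop (𝓝 pv.1) := by
      have := (h.symm.continuous.tendsto (h pv)).comp h2
      rw [h.symm_apply_apply] at this
      exact (continuous_subtype_val.tendsto pv).comp this
    have h4 := eventually_config h3 ((0 : ℤ), some v)
    obtain ⟨w, hw⟩ := h4.exists
    have h5 : pv.1 ((0 : ℤ), some v) = true := by simp [hpv, cst]
    rw [h5] at hw
    have h6 : shX 1 (h.symm (y w)) = h.symm (y w) := by
      rw [← hh']
      congr 1
    have h7 : h.symm (y w) = pv := by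
      rcases fixed_cases (h.symm (y w)).2 (congrArg Subtype.val h6) with h8 | ⟨q, h8⟩
      · rw [h8] at hw
        simp [cinf] at hw
      · apply Subtype.ext
        rw [h8] at hw ⊢
        simp only [cst, decide_eq_true_eq] at hw
        rw [← hw]
    have h8 : y w = h pv := by rw [← h7, h.apply_symm_apply]
    have h9 := congrFun (congrArg Subtype.val h8) ((0 : ℤ), some w)
    rw [h1] at h9
    simp [y, cst, cinf] at h9
  · rcases q with _ | w
    · -- not the hub
      exfalso
      let z : XS γ' := ⟨single 0, isX_single γ' 0⟩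
      have hlim : ∀ s : ℤ, (s = 1 ∨ s = -1) →
          Tendsto (fun k : ℕ => shX (s * k) z) atTop (𝓝 (h pv)) := by
        intro s hs
        rw [tendsto_subtype_rng, h1]
        apply tendsto_config
        rintro ⟨n, r⟩
        filter_upwards [eventually_gt_atTop n.natAbs] with k hk
        change single 0 (n + s * k, r) = cst none (n, r)
        rw [single_ne, cst_apply]
        rcases hs with rfl | rfl <;> omega
      have hlim' : ∀ s : ℤ, (s = 1 ∨ s = -1) →
          ∀ᶠ k : ℕ in atTop, (h.symm z).1 (s * k, some v) = true := by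
        intro s hs
        have h3 : Tendsto (fun k : ℕ => (h.symm (shX (s * k) z)).1) atTop (𝓝 pv.1) := by
          have := (h.symm.continuous.tendsto (h pv)).comp (hlim s hs)
          rw [h.symm_apply_apply] at this
          exact (continuous_subtype_val.tendsto pv).comp this
        have h4 := eventually_config h3 ((0 : ℤ), some v)
        filter_upwards [h4] with k hk
        rw [equivariant hh'] at hk
        change (h.symm z).1 (0 + s * k, some v) = pv.1 (0, some v) at hk
        rw [zero_add] at hk
        rw [hk]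
        simp [hpv, cst]
      obtain ⟨N1, hN1⟩ := eventually_atTop.1 (hlim' 1 (Or.inl rfl))
      obtain ⟨N2, hN2⟩ := eventually_atTop.1 (hlim' (-1) (Or.inr rfl))
      have h5 := analysis (h.symm z).2 (v := v) (w := v) (N := max N1 N2)
        (fun n hn => by
          have := hN2 n.natAbs (by omega)
          rwa [show (-1 : ℤ) * (n.natAbs : ℤ) = n by omega] at this)
        (fun n hn => by
          have := hN1 n.natAbs (by omega)
          rwa [show (1 : ℤ) * (n.natAbs : ℤ) = n by omega] at this)
      rcases h5 with ⟨-, h5⟩ | h5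
      · have h6 : h.symm z = pv := Subtype.ext h5
        have h7 : z = h pv := by rw [← h6, h.apply_symm_apply]
        have h8 := congrFun (congrArg Subtype.val h7) ((0 : ℤ), none)
        rw [h1] at h8
        simp [z, single, cst] at h8
      · rw [hirr] at h5
        simp at h5
    · exact ⟨w, Subtype.ext h1⟩

/-- a conjugacy induces a map of the vertices which preserves edges -/
theorem edge_to_edge (hirr : ∀ v, γ v v = false) (h : XS γ ≃ₜ XS γ')
    (hh : ∀ x, h (shX 1 x) = shX 1 (h x)) {v w v' w' : ℕ}
    (hv : h ⟨cst (some v), isX_vertex γ v⟩ = ⟨cst (some v'), isX_vertex γ' v'⟩)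
    (hw : h ⟨cst (some w), isX_vertex γ w⟩ = ⟨cst (some w'), isX_vertex γ' w'⟩)
    (he : γ v w = true) : γ' v' w' = true := by
  have hne : v' ≠ w' := by
    rintro rfl
    have h1 := h.injective (hv.trans hw.symm)
    have h2 := congrFun (congrArg Subtype.val h1) ((0 : ℤ), some w)
    simp only [cst, decide_true] at h2
    have h3 : w = v := by simpa using h2
    rw [← h3, hirr] at he
    simp at he
  let z : XS γ := ⟨het v w, isX_het he⟩
  have hlim : ∀ (s : ℤ) (u : ℕ), (s = 1 ∧ u = w ∨ s = -1 ∧ u = v) →
      Tendsto (fun k : ℕ => shX (s * k) z) atTop (𝓝 ⟨cst (some u), isX_vertex γ u⟩) := by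
    intro s u hs
    rw [tendsto_subtype_rng]
    apply tendsto_config
    rintro ⟨n, r⟩
    filter_upwards [eventually_gt_atTop n.natAbs] with k hk
    change het v w (n + s * k, r) = cst (some u) (n, r)
    rcases hs with ⟨rfl, rfl⟩ | ⟨rfl, rfl⟩
    · have : ¬ n + 1 * (k : ℤ) < 0 := by omega
      simp only [het, cst, if_neg this]
    · have : n + -1 * (k : ℤ) < 0 := by omega
      simp only [het, cst, if_pos this]
  have hlim' : ∀ (s : ℤ) (u u' : ℕ), (s = 1 ∧ u = w ∨ s = -1 ∧ u = v) →
      h ⟨cst (some u), isX_vertex γ u⟩ = ⟨cst (some u'), isX_vertex γ' u'⟩ →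
      ∀ᶠ k : ℕ in atTop, (h z).1 (s * k, some u') = true := by
    intro s u u' hs hu
    have h3 : Tendsto (fun k : ℕ => (h (shX (s * k) z)).1) atTop (𝓝 (cst (some u'))) := by
      have := (h.continuous.tendsto ⟨cst (some u), isX_vertex γ u⟩).comp (hlim s u hs)
      rw [hu] at this
      exact (continuous_subtype_val.tendsto _).comp this
    have h4 := eventually_config h3 ((0 : ℤ), some u')
    filter_upwards [h4] with k hk
    rw [equivariant hh] at hk
    change (h z).1 (0 + s * k, some u') = cst (some u') (0, some u') at hk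
    rw [zero_add] at hk
    rw [hk]
    simp [cst]
  obtain ⟨N1, hN1⟩ := eventually_atTop.1 (hlim' 1 w w' (Or.inl ⟨rfl, rfl⟩) hw)
  obtain ⟨N2, hN2⟩ := eventually_atTop.1 (hlim' (-1) v v' (Or.inr ⟨rfl, rfl⟩) hv)
  have h5 := analysis (h z).2 (v := v') (w := w') (N := max N1 N2)
    (fun n hn => by
      have := hN2 n.natAbs (by omega)
      rwa [show (-1 : ℤ) * (n.natAbs : ℤ) = n by omega] at this)
    (fun n hn => by
      have := hN1 n.natAbs (by omega)
      rwa [show (1 : ℤ) * (n.natAbs : ℤ) = n by omega] at this)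
  rcases h5 with ⟨h5, -⟩ | h5
  · exact absurd h5 hne
  · exact h5

/-- Conjugate systems come from isomorphic graphs. -/
theorem iso_of_conj (hirr : ∀ v, γ v v = false) (hirr' : ∀ v, γ' v v = false) (h : XS γ ≃ₜ XS γ')
    (hh : ∀ x, h (shX 1 x) = shX 1 (h x)) :
    ∃ π : Equiv.Perm ℕ, ∀ v w, γ' (π v) (π w) = γ v w := by
  have hh' : ∀ y, h.symm (shX 1 y) = shX 1 (h.symm y) := by
    intro y
    rw [Homeomorph.symm_apply_eq, hh, h.apply_symm_apply]
  choose f hf using vertex_to_vertex hirr h hh
  choose g hg using vertex_to_vertex hirr' h.symm hh'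
  have hinj : ∀ {δ : ℕ → ℕ → Bool} {a b : ℕ},
      (⟨cst (some a), isX_vertex δ a⟩ : XS δ) = ⟨cst (some b), isX_vertex δ b⟩ → a = b := by
    intro δ a b hab
    have h2 := congrFun (congrArg Subtype.val hab) ((0 : ℤ), some b)
    simp only [cst, decide_true] at h2
    have h3 : b = a := by simpa using h2
    exact h3.symm
  have h1 : ∀ v, g (f v) = v := by
    intro v
    apply hinj (δ := γ)
    rw [← hg (f v), ← hf v, h.symm_apply_apply]
  have h2 : ∀ v, f (g v) = v := by
    intro v
    apply hinj (δ := γ')
    rw [← hf (g v), ← hg v, h.apply_symm_apply]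
  refine ⟨⟨f, g, h1, h2⟩, fun v w => ?_⟩
  change γ' (f v) (f w) = γ v w
  rw [Bool.eq_iff_iff]
  constructor
  · intro h3
    have := edge_to_edge hirr' h.symm hh' (hg (f v)) (hg (f w)) h3
    rwa [h1, h1] at this
  · intro h3
    exact edge_to_edge hirr h hh (hf v) (hf w) h3

end

end Pool.Agent.TH724.TC
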