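import Mathlib
import Pool.Agent.TH724.TC.Canon
import Pool.Agent.TH724.TC.Dyn

set_option autoImplicit false

open Set Filter Topology

namespace Pool.Agent.TH724.TC

/-! ## The system of a graph as a homeomorphism of the Cantor space -/

lemma exists_window {U : Set (I → Bool)} (hU : IsOpen U) {x : I → Bool} (hx : x ∈ U) :
    ∃ M : ℕ, ∀ y : I → Bool, (∀ p : I, -(M : ℤ) ≤ p.1 ∧ p.1 ≤ M → y p = x p) → y ∈ U := by
  obtain ⟨J, u, hu, hsub⟩ := isOpen_pi_iff.mp hU x hx
  refine ⟨J.sup fun p => p.1.natAbs, fun y hy => hsub ?_⟩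
  intro p hp
  have h1 : p.1.natAbs ≤ J.sup fun p => p.1.natAbs :=
    Finset.le_sup (f := fun p : I => p.1.natAbs) hp
  rw [hy p (by omega)]
  exact (hu p hp).2

section

variable (γ : ℕ → ℕ → Bool)

/-- truncated configurations are dense -/
lemma trunc_mem {U : Set (I → Bool)} (hU : IsOpen U) {x : I → Bool} (hx : x ∈ U) :
    ∃ M : ℕ, ∀ N : ℕ, M ≤ N → trunc N x ∈ U := by
  obtain ⟨M, hM⟩ := exists_window hU hx
  refine ⟨M, fun N hN => hM _ fun p hp => ?_⟩
  obtain ⟨n, q⟩ := p
  exact trunc_in (by simp only at hp; omega)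

/-- topological transitivity for the configurations -/
theorem glue {U V : Set (I → Bool)} (hU : IsOpen U) (hV : IsOpen V) {x y : I → Bool}
    (hx : IsX γ x) (hy : IsX γ y) (hxU : x ∈ U) (hyV : y ∈ V) :
    ∃ (n : ℕ) (z : I → Bool), IsX γ z ∧ z ∈ U ∧ shZ n z ∈ V := by
  obtain ⟨M1, h1⟩ := exists_window hU hxU
  obtain ⟨M2, h2⟩ := exists_window hV hyV
  set M : ℕ := max M1 M2 with hM
  refine ⟨10 * M + 10, comb M (trunc M x) (trunc M y), ?_, ?_, ?_⟩
  · exact IsX.comb (hx.trunc _) (hy.trunc _) (by omega) (supp_trunc _ _) (supp_trunc _ _)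
  · refine h1 _ fun p hp => ?_
    obtain ⟨n, q⟩ := p
    simp only at hp
    rw [comb_left (by omega), trunc_in (by omega)]
  · refine h2 _ fun p hp => ?_
    obtain ⟨n, q⟩ := p
    simp only at hp
    rw [shZ_apply, comb_right (by push_cast; omega), trunc_in (by push_cast; omega)]
    congr 2
    push_cast
    ring

/-- there are no isolated configurations -/
theorem not_isolated {U : Set (I → Bool)} (hU : IsOpen U) {x : I → Bool} (hx : IsX γ x)
    (hxU : x ∈ U) : ∃ y, IsX γ y ∧ y ∈ U ∧ y ≠ x := by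
  obtain ⟨M, h1⟩ := exists_window hU hxU
  have hz : IsX γ (comb M (trunc M x) (single 0)) :=
    IsX.comb (hx.trunc _) (isX_single γ 0) (by omega) (supp_trunc _ _) (supp_single 0 (by omega))
  have hzU : comb M (trunc M x) (single 0) ∈ U := by
    refine h1 _ fun p hp => ?_
    obtain ⟨n, q⟩ := p
    simp only at hp
    rw [comb_left (by omega), trunc_in (by omega)]
  have hyU : trunc M x ∈ U := by
    refine h1 _ fun p hp => ?_
    obtain ⟨n, q⟩ := p
    simp only at hp
    rw [trunc_in (by omega)]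
  have hne : comb M (trunc M x) (single 0) ≠ trunc M x := by
    intro h
    have h2 := congrFun h ((10 * M + 10 : ℤ), none)
    rw [comb_right (by omega), trunc_out (by omega), sub_self, single_zero] at h2
    simp at h2
  by_cases h3 : trunc M x = x
  · exact ⟨_, hz, hzU, fun h4 => hne (h4.trans h3.symm)⟩
  · exact ⟨_, hx.trunc _, hyU, h3⟩

/-- an enumeration of the indices -/
noncomputable def e : ℕ ≃ I := (Denumerable.eqv I).symm

/-- the configurations as elements of the Cantor space -/
noncomputable def emb : (I → Bool) ≃ₜ C where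
  toFun x := fun n => x (e n)
  invFun y := fun p => y (e.symm p)
  left_inv x := by funext p; simp
  right_inv y := by funext n; simp
  continuous_toFun := continuous_pi fun n => continuous_apply (A := fun _ : I => Bool) (e n)
  continuous_invFun := continuous_pi fun p => continuous_apply (A := fun _ : ℕ => Bool) (e.symm p)

/-- the set of the configurations in the Cantor space -/
def P : Set C := {y | IsX γ (emb.symm y)}

lemma isClosed_P : IsClosed (P γ) := by
  have h1 : Continuous (fun y : C => ((γ, emb.symm y) : (ℕ → ℕ → Bool) × (I → Bool))) :=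
    continuous_const.prodMk emb.symm.continuous
  exact isClosed_isX.preimage h1

lemma noIso_P : NoIso (P γ) := by
  intro y hy N
  have hU : IsOpen (emb ⁻¹' {y' : C | ∀ i < N, y' i = y i}) :=
    (isOpen_agree y N).preimage emb.continuous
  obtain ⟨x, hx, hxU, hne⟩ := not_isolated γ hU (x := emb.symm y) hy (by
    intro i _
    rw [emb.apply_symm_apply])
  refine ⟨emb x, ?_, ?_, hxU⟩
  · change IsX γ (emb.symm (emb x))
    rw [emb.symm_apply_apply]
    exact hx
  · intro h
    exact hne (by rw [← h, emb.symm_apply_apply])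

lemma nonempty_P : (P γ).Nonempty := ⟨emb (cst none), by
  change IsX γ (emb.symm (emb _))
  rw [emb.symm_apply_apply]
  exact isX_hub γ⟩

/-- the configurations in the Cantor space -/
noncomputable def XP : XS γ ≃ₜ P γ where
  toFun x := ⟨emb x.1, by
    change IsX γ (emb.symm (emb _))
    rw [emb.symm_apply_apply]
    exact x.2⟩
  invFun y := ⟨emb.symm y.1, y.2⟩
  left_inv x := Subtype.ext (emb.symm_apply_apply x.1)
  right_inv y := Subtype.ext (emb.apply_symm_apply y.1)
  continuous_toFun := by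
    apply Continuous.subtype_mk
    exact emb.continuous.comp continuous_subtype_val
  continuous_invFun := by
    apply Continuous.subtype_mk
    exact emb.symm.continuous.comp continuous_subtype_val

/-- the canonical homeomorphism from the configurations to the Cantor space -/
noncomputable def Phi : XS γ ≃ₜ C :=
  (XP γ).trans (canon (isClosed_P γ) (noIso_P γ) (nonempty_P γ))

lemma Phi_apply (x : XS γ) : Phi γ x = th (P γ) (emb x.1) := rfl

/-- the shift as a homeomorphism -/
def shH : XS γ ≃ₜ XS γ where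
  toFun := shX 1
  invFun := shX (-1)
  left_inv x := by rw [shX_add, show (-1 : ℤ) + 1 = 0 by norm_num, shX_zero]
  right_inv x := by rw [shX_add, show (1 : ℤ) + -1 = 0 by norm_num, shX_zero]
  continuous_toFun := by
    apply Continuous.subtype_mk
    exact (continuous_shZ 1).comp continuous_subtype_val
  continuous_invFun := by
    apply Continuous.subtype_mk
    exact (continuous_shZ (-1)).comp continuous_subtype_val

/-- the homeomorphism of the Cantor space assigned to `γ` -/
noncomputable def Tg : C ≃ₜ C := (Phi γ).symm.trans ((shH γ).trans (Phi γ))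

lemma Tg_Phi (x : XS γ) : Tg γ (Phi γ x) = Phi γ (shX 1 x) := by
  change Phi γ (shH γ ((Phi γ).symm (Phi γ x))) = _
  rw [Homeomorph.symm_apply_apply]
  rfl

lemma Tg_pow (n : ℕ) (x : XS γ) : (Tg γ ^ n) (Phi γ x) = Phi γ (shX n x) := by
  induction n with
  | zero =>
    rw [pow_zero, Nat.cast_zero, shX_zero]
    rfl
  | succ n ih =>
    rw [pow_succ']
    change Tg γ ((Tg γ ^ n) (Phi γ x)) = _
    rw [ih, Tg_Phi, shX_add]
    congr 2
    push_cast
    ring

/-- topological transitivity -/
def IsTransitive (T : C ≃ₜ C) : Prop :=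
  ∀ U V : Set C, IsOpen U → IsOpen V → U.Nonempty → V.Nonempty → ∃ n : ℤ, ((T ^ n) '' U ∩ V).Nonempty

theorem isTransitive_Tg : IsTransitive (Tg γ) := by
  rintro U V hU hV ⟨u, hu⟩ ⟨v, hv⟩
  have key : ∀ W : Set C, IsOpen W → ∃ W' : Set (I → Bool), IsOpen W' ∧
      ∀ x : XS γ, x.1 ∈ W' ↔ Phi γ x ∈ W := by
    intro W hW
    obtain ⟨W', h1, h2⟩ := isOpen_induced_iff.1 (hW.preimage (Phi γ).continuous)
    exact ⟨W', h1, fun x => by
      change x ∈ Subtype.val ⁻¹' W' ↔ _
      rw [h2]
      rfl⟩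
  obtain ⟨U', hU', h1⟩ := key U hU
  obtain ⟨V', hV', h2⟩ := key V hV
  obtain ⟨n, z, hz, hzU, hzV⟩ := glue γ hU' hV' ((Phi γ).symm u).2 ((Phi γ).symm v).2
    ((h1 _).2 (by rwa [Homeomorph.apply_symm_apply]))
    ((h2 _).2 (by rwa [Homeomorph.apply_symm_apply]))
  refine ⟨n, Phi γ (shX n ⟨z, hz⟩), ⟨Phi γ ⟨z, hz⟩, (h1 ⟨z, hz⟩).1 hzU, ?_⟩, (h2 (shX n ⟨z, hz⟩)).1 hzV⟩
  rw [zpow_natCast]
  exact Tg_pow γ n _

end

/-! ### Isomorphic graphs have conjugate systems -/

/-- relabel the vertices -/
def rel (π : Equiv.Perm ℕ) : (I → Bool) ≃ₜ (I → Bool) where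
  toFun x := fun p => x (p.1, p.2.map π.symm)
  invFun x := fun p => x (p.1, p.2.map π)
  left_inv x := by funext ⟨n, q⟩; cases q <;> simp
  right_inv x := by funext ⟨n, q⟩; cases q <;> simp
  continuous_toFun := continuous_pi fun p =>
    continuous_apply (A := fun _ : I => Bool) (p.1, p.2.map π.symm)
  continuous_invFun := continuous_pi fun p =>
    continuous_apply (A := fun _ : I => Bool) (p.1, p.2.map π)

lemma rel_some' (π : Equiv.Perm ℕ) (x : I → Bool) (n : ℤ) (v : ℕ) :
    rel π x (n, some v) = x (n, some (π.symm v)) := rfl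

lemma rel_none' (π : Equiv.Perm ℕ) (x : I → Bool) (n : ℤ) : rel π x (n, none) = x (n, none) := rfl

lemma rel_symm' (π : Equiv.Perm ℕ) (x : I → Bool) : (rel π).symm x = rel π.symm x := rfl

lemma isX_rel {γ γ' : ℕ → ℕ → Bool} {π : Equiv.Perm ℕ} (h : ∀ v w, γ' (π v) (π w) = γ v w)
    {x : I → Bool} (hx : IsX γ x) : IsX γ' (rel π x) := by
  refine ⟨?_, ?_, ?_, ?_, ?_⟩
  · intro n q q' h1 h2
    have h3 := hx.one n _ _ h1 h2
    cases q <;> cases q' <;> simp_all
  · intro n v w h1 h2
    rcases hx.edge n _ _ h1 h2 with h3 | h3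
    · left
      exact π.symm.injective h3
    · right
      rw [← h] at h3
      simpa using h3
  · intro i j hij h1 v v'
    exact hx.two i j hij h1 _ _
  · exact hx.right
  · exact hx.left

/-- the conjugacy of the systems of isomorphic graphs -/
theorem conj_of_iso {γ γ' : ℕ → ℕ → Bool} {π : Equiv.Perm ℕ} (h : ∀ v w, γ' (π v) (π w) = γ v w) :
    ∃ H : XS γ ≃ₜ XS γ', ∀ x, H (shX 1 x) = shX 1 (H x) := by
  have h' : ∀ v w, γ (π.symm v) (π.symm w) = γ' v w := by
    intro v w
    rw [← h]
    simp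
  refine ⟨{
    toFun := fun x => ⟨rel π x.1, isX_rel h x.2⟩
    invFun := fun x => ⟨rel π.symm x.1, isX_rel h' x.2⟩
    left_inv := fun x => Subtype.ext ((rel π).symm_apply_apply x.1)
    right_inv := fun x => Subtype.ext ((rel π).apply_symm_apply x.1)
    continuous_toFun := by
      apply Continuous.subtype_mk
      exact (rel π).continuous.comp continuous_subtype_val
    continuous_invFun := by
      apply Continuous.subtype_mk
      exact (rel π.symm).continuous.comp continuous_subtype_val }, fun x => rfl⟩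

theorem conj_iff {γ γ' : ℕ → ℕ → Bool} :
    (∃ h : C ≃ₜ C, Tg γ' = h * Tg γ * h⁻¹) ↔
      ∃ H : XS γ ≃ₜ XS γ', ∀ x, H (shX 1 x) = shX 1 (H x) := by
  constructor
  · rintro ⟨h, hh⟩
    have hh' : ∀ y, Tg γ' (h y) = h (Tg γ y) := by
      intro y
      rw [hh]
      change h (Tg γ (h.symm (h y))) = _
      rw [h.symm_apply_apply]
    refine ⟨(Phi γ).trans (h.trans (Phi γ').symm), fun x => ?_⟩
    change (Phi γ').symm (h (Phi γ (shX 1 x))) = shX 1 ((Phi γ').symm (h (Phi γ x)))
    rw [Homeomorph.symm_apply_eq, ← Tg_Phi, ← Tg_Phi, Homeomorph.apply_symm_apply, hh']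
  · rintro ⟨H, hH⟩
    refine ⟨(Phi γ).symm.trans (H.trans (Phi γ')), ?_⟩
    ext1 y
    change Tg γ' y = Phi γ' (H ((Phi γ).symm (Tg γ (Phi γ (H.symm ((Phi γ').symm y))))))
    rw [Tg_Phi, Homeomorph.symm_apply_apply, hH, Homeomorph.apply_symm_apply, ← Tg_Phi,
      Homeomorph.apply_symm_apply]

end Pool.Agent.TH724.TC
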