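import Mathlib
import Pool.Agent.TH724.TC.Red

set_option autoImplicit false

open Set Filter Topology

namespace Pool.Agent.TH724.TC

/-! ## The reduction is Borel -/

/-- a homeomorphism as a continuous map -/
def toCM (T : C ≃ₜ C) : C(C, C) := ⟨T, T.continuous⟩

/-- the topology of uniform convergence on the homeomorphism group of the Cantor space (the
compact-open topology) -/
instance homeoTop : TopologicalSpace (C ≃ₜ C) := TopologicalSpace.induced toCM inferInstance

/-- a map to the homeomorphism group is Borel if the obvious sets are -/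
theorem measurable_homeo {Z : Type} [MeasurableSpace Z] {T : Z → C ≃ₜ C}
    (h : ∀ A B : Set C, IsClopen A → IsClopen B → MeasurableSet {z | MapsTo (T z) A B}) :
    @Measurable Z (C ≃ₜ C) _ (borel _) T := by
  have h1 : borel (C ≃ₜ C) = (borel C(C, C)).comap toCM := borel_comap
  rw [h1, measurable_comap_iff]
  have h2 : borel C(C, C) = MeasurableSpace.generateFrom
      {m | ∃ K : Set C, IsCompact K ∧ ∃ U : Set C, IsOpen U ∧ {f : C(C, C) | MapsTo f K U} = m} := by
    have := borel_eq_generateFrom_of_subbasis
      (s := {m | ∃ K : Set C, IsCompact K ∧ ∃ U : Set C, IsOpen U ∧ {f : C(C, C) | MapsTo f K U} = m})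
      (by
        rw [ContinuousMap.compactOpen_eq]
        congr 1)
    exact this
  rw [h2]
  apply measurable_generateFrom
  rintro _ ⟨K, hK, U, hU, rfl⟩
  -- reduce to clopen sets
  have hcount : Countable {A : Set C // IsClopen A} := by
    have h3 : Countable (TopologicalSpace.Clopens C) :=
      TopologicalSpace.Clopens.countable_iff_secondCountable.2 inferInstance
    exact Function.Injective.countable (f := fun A : {A : Set C // IsClopen A} =>
      (⟨A.1, A.2⟩ : TopologicalSpace.Clopens C)) fun A B hAB => Subtype.ext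
        (congrArg TopologicalSpace.Clopens.carrier hAB)
  have h3 : (toCM ∘ T) ⁻¹' {f : C(C, C) | MapsTo f K U} =
      ⋃ A : {A : Set C // IsClopen A}, ⋃ B : {A : Set C // IsClopen A},
        {z | K ⊆ A.1 ∧ B.1 ⊆ U ∧ MapsTo (T z) A.1 B.1} := by
    ext z
    simp only [mem_iUnion]
    constructor
    · intro hz
      change MapsTo (T z) K U at hz
      have hKc : IsCompact (T z '' K) := hK.image (T z).continuous
      obtain ⟨B, hB, hKB, hBU⟩ := exists_clopen_of_closed_subset_open hKc.isClosed hU
        (image_subset_iff.2 hz)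
      exact ⟨⟨T z ⁻¹' B, hB.preimage (T z).continuous⟩, ⟨B, hB⟩, image_subset_iff.1 hKB, hBU,
        fun x hx => hx⟩
    · rintro ⟨A, B, h1, h2, h3⟩
      exact fun x hx => h2 (h3 (h1 hx))
  rw [h3]
  refine MeasurableSet.iUnion fun A => MeasurableSet.iUnion fun B => ?_
  exact (MeasurableSet.const _).inter ((MeasurableSet.const _).inter (h A.1 B.1 A.2 B.2))

section

/-- the parameter space of arbitrary binary relations -/
abbrev G0 : Type := ℕ → ℕ → Bool

lemma isClosed_section (x : I → Bool) : IsClosed {γ : G0 | IsX γ x} := by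
  have h1 : Continuous (fun γ : G0 => ((γ, x) : G0 × (I → Bool))) :=
    continuous_id.prodMk continuous_const
  exact isClosed_isX.preimage h1

lemma isClosed_spl (x : C) (n : ℕ) : IsClosed {γ : G0 | Spl (P γ) x n} := by
  have h1 : IsClosed {p : G0 × C | IsX p.1 (emb.symm p.2) ∧ (∀ i < n, p.2 i = x i) ∧
      p.2 n ≠ x n} := by
    refine IsClosed.inter ?_ (IsClosed.inter ?_ ?_)
    · have h2 : Continuous (fun p : G0 × C => ((p.1, emb.symm p.2) : G0 × (I → Bool))) :=
        continuous_fst.prodMk (emb.symm.continuous.comp continuous_snd)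
      exact isClosed_isX.preimage h2
    · refine isClosed_all fun i => isClosed_all fun _ => ?_
      have h3 : Continuous (fun p : G0 × C => p.2 i) := (continuous_apply i).comp continuous_snd
      exact (isClopen_eq h3 (x i)).isClosed
    · have h3 : Continuous (fun p : G0 × C => p.2 n) := (continuous_apply n).comp continuous_snd
      exact (isClopen_eq h3 (x n)).compl.isClosed
  have h2 := isClosedMap_fst_of_compactSpace _ h1
  convert h2 using 1
  ext γ
  constructor
  · rintro ⟨y, h3, h4, h5⟩
    exact ⟨(γ, y), ⟨h3, h4, h5⟩, rfl⟩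
  · rintro ⟨⟨γ', y⟩, ⟨h3, h4, h5⟩, rfl⟩
    exact ⟨y, h3, h4, h5⟩

open Classical in
lemma measurable_count [MeasurableSpace G0] [BorelSpace G0] (x : C) (n : ℕ) :
    Measurable (fun γ : G0 => Nat.count (Spl (P γ) x) n) := by
  induction n with
  | zero => simp only [Nat.count_zero]; exact measurable_const
  | succ n ih =>
    simp only [Nat.count_succ]
    exact ih.add (Measurable.ite (isClosed_spl x n).measurableSet measurable_const measurable_const)

open Classical in
/-- the image of a fixed configuration, as a function of the graph -/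
noncomputable def F (x : I → Bool) (γ : G0) : C :=
  if h : IsX γ x then Phi γ ⟨x, h⟩ else fun _ => false

lemma F_pos {x : I → Bool} {γ : G0} (h : IsX γ x) : F x γ = Phi γ ⟨x, h⟩ := by
  simp [F, h]

lemma measurable_F [MeasurableSpace G0] [BorelSpace G0] (x : I → Bool) : Measurable (F x) := by
  classical
  refine measurable_pi_lambda _ fun k => ?_
  apply measurable_to_countable'
  intro b
  have h1 : (fun γ => F x γ k) ⁻¹' {b} =
      ({γ : G0 | IsX γ x} ∩ ⋃ n : ℕ, ({γ : G0 | Spl (P γ) (emb x) n} ∩
        ({γ : G0 | Nat.count (Spl (P γ) (emb x)) n = k} ∩ {_γ : G0 | emb x n = b}))) ∪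
      ({γ : G0 | IsX γ x}ᶜ ∩ {_γ : G0 | false = b}) := by
    ext γ
    simp only [mem_union, mem_inter_iff, mem_iUnion]
    by_cases h : IsX γ x
    · have hP : emb x ∈ P γ := by
        change IsX γ (emb.symm (emb x))
        rwa [emb.symm_apply_apply]
      have h2 : F x γ k = emb x (Nat.nth (Spl (P γ) (emb x)) k) := by
        rw [F_pos h, Phi_apply]
        unfold th
        congr
      change F x γ k = b ↔ _
      rw [h2]
      constructor
      · intro h3
        left
        refine ⟨h, Nat.nth (Spl (P γ) (emb x)) k, ?_, ?_, h3⟩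
        · exact ((nth_eq_iff (noIso_P γ) hP).1 rfl).1
        · exact ((nth_eq_iff (noIso_P γ) hP).1 rfl).2
      · rintro (⟨-, n, h3, h4, h5⟩ | ⟨h3, -⟩)
        · have h6 := (nth_eq_iff (noIso_P γ) hP).2 ⟨h3, h4⟩
          rw [h6]
          exact h5
        · exact absurd h h3
    · change F x γ k = b ↔ _
      have h2 : F x γ k = false := by simp [F, h]
      rw [h2]
      constructor
      · intro h3
        exact Or.inr ⟨h, h3⟩
      · rintro (⟨h3, -⟩ | ⟨-, h3⟩)
        · exact absurd h3 h
        · exact h3
  rw [h1]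
  refine MeasurableSet.union ((isClosed_section x).measurableSet.inter
    (MeasurableSet.iUnion fun n => ?_)) ((isClosed_section x).measurableSet.compl.inter
      (MeasurableSet.const _))
  refine (isClosed_spl _ n).measurableSet.inter (MeasurableSet.inter ?_ (MeasurableSet.const _))
  exact measurable_count (emb x) n (measurableSet_singleton k)

/-! ### A countable dense set of configurations -/

/-- configurations with finite support -/
def Dn : Set (I → Bool) := {x | (∀ n q q', x (n, q) = true → x (n, q') = true → q = q') ∧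
  ∃ M : ℕ, Supp M x}

lemma countable_Dn : Dn.Countable := by
  classical
  -- a configuration is determined by the finite set of its vertices and the finite set of its `∞`
  let f : Finset (ℤ × ℕ) × Finset ℤ → (I → Bool) := fun s p =>
    match p.2 with
    | some v => decide ((p.1, v) ∈ s.1)
    | none => decide (p.1 ∉ s.1.image Prod.fst ∧ p.1 ∉ s.2)
  refine (countable_range f).mono ?_
  rintro x ⟨h1, M, hM⟩
  -- vertices
  have hfin : {p : ℤ × ℕ | x (p.1, some p.2) = true}.Finite := by
    have hinj : InjOn Prod.fst {p : ℤ × ℕ | x (p.1, some p.2) = true} := by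
      rintro ⟨n, v⟩ h2 ⟨n', v'⟩ h3 h4
      simp only at h4
      subst h4
      have := h1 n _ _ h2 h3
      simp only [Option.some.injEq] at this
      rw [this]
    refine Finite.of_finite_image ((Finset.Icc (-(M : ℤ)) M).finite_toSet.subset ?_) hinj
    rintro _ ⟨⟨n, v⟩, h2, rfl⟩
    simp only [Finset.coe_Icc, mem_Icc]
    by_contra h3
    have h4 := hM n h3 (some v)
    have h5 : x (n, some v) = true := h2
    rw [h5] at h4
    simp at h4
  have hfin' : {n : ℤ | ∀ q, x (n, q) = false}.Finite := by
    refine (Finset.Icc (-(M : ℤ)) M).finite_toSet.subset ?_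
    intro n h2
    simp only [Finset.coe_Icc, mem_Icc]
    by_contra h3
    have h4 := hM n h3 none
    have h5 : x (n, none) = false := h2 none
    rw [h5] at h4
    simp at h4
  refine ⟨(hfin.toFinset, hfin'.toFinset), ?_⟩
  funext ⟨n, q⟩
  rcases q with _ | v
  · simp only [f, Finset.mem_image, Finite.mem_toFinset]
    by_cases h2 : x (n, none) = true
    · rw [h2, decide_eq_true_eq]
      constructor
      · rintro ⟨⟨n', v⟩, h3, rfl⟩
        have h4 : x (n', some v) = true := h3
        have := h1 _ _ _ h2 h4
        simp at this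
      · intro h3
        have h4 : x (n, none) = false := h3 none
        rw [h4] at h2
        simp at h2
    · rw [Bool.not_eq_true] at h2
      rw [h2, decide_eq_false_iff_not]
      rintro ⟨h3, h4⟩
      apply h4
      intro q
      rcases q with _ | v
      · exact h2
      · by_contra h5
        rw [Bool.not_eq_false] at h5
        exact h3 ⟨(n, v), h5, rfl⟩
  · simp only [f, Finite.mem_toFinset]
    by_cases h2 : x (n, some v) = true
    · exact (decide_eq_true (p := (n, v) ∈ {p : ℤ × ℕ | x (p.1, some p.2) = true}) h2).trans h2.symm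
    · exact (decide_eq_false (p := (n, v) ∈ {p : ℤ × ℕ | x (p.1, some p.2) = true}) h2).trans
        (eq_false_of_ne_true h2).symm

lemma dense_Dn {γ : G0} {U : Set (XS γ)} (hU : IsOpen U) {x : XS γ} (hx : x ∈ U) :
    ∃ d ∈ Dn, ∃ h : IsX γ d, (⟨d, h⟩ : XS γ) ∈ U := by
  obtain ⟨W, hW, hWU⟩ := isOpen_induced_iff.1 hU
  have hxW : x.1 ∈ W := by
    rw [← hWU] at hx
    exact hx
  obtain ⟨M, hM⟩ := trunc_mem hW hxW
  have h1 : IsX γ (trunc M x.1) := x.2.trunc _
  refine ⟨trunc M x.1, ⟨h1.one, M, supp_trunc _ _⟩, h1, ?_⟩
  rw [← hWU]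
  exact hM M le_rfl

theorem measurable_Tg [MeasurableSpace G0] [BorelSpace G0] :
    @Measurable G0 (C ≃ₜ C) _ (borel _) Tg := by
  apply measurable_homeo
  intro A B hA hB
  have hc : Countable Dn := countable_Dn.to_subtype
  have h1 : {γ : G0 | MapsTo (Tg γ) A B} = (⋃ d : Dn, ({γ : G0 | IsX γ d.1} ∩
      (F d.1 ⁻¹' A ∩ F (shZ 1 d.1) ⁻¹' Bᶜ)))ᶜ := by
    ext γ
    rw [mem_compl_iff, mem_iUnion]
    constructor
    · rintro h2 ⟨⟨d, hd⟩, h3, h4, h5⟩
      have h3' : IsX γ d := h3
      simp only [mem_preimage] at h4 h5
      rw [F_pos h3'] at h4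
      rw [F_pos (h3'.shift 1)] at h5
      apply h5
      have := h2 h4
      rw [Tg_Phi] at this
      exact this
    · intro h2 y hy
      by_contra h3
      apply h2
      have hU : IsOpen {x : XS γ | Phi γ x ∈ A ∧ Phi γ (shX 1 x) ∈ Bᶜ} := by
        refine IsOpen.inter (hA.isOpen.preimage (Phi γ).continuous) ?_
        exact hB.compl.isOpen.preimage ((Phi γ).continuous.comp (shH γ).continuous)
      obtain ⟨d, hd, hX, h4, h5⟩ := dense_Dn hU (x := (Phi γ).symm y) (by
        refine ⟨by rwa [Homeomorph.apply_symm_apply], ?_⟩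
        rw [← Tg_Phi, Homeomorph.apply_symm_apply]
        exact h3)
      refine ⟨⟨d, hd⟩, hX, ?_, ?_⟩
      · simp only [mem_preimage]
        rw [F_pos hX]
        exact h4
      · simp only [mem_preimage]
        rw [F_pos (hX.shift 1)]
        exact h5
  rw [h1]
  refine (MeasurableSet.iUnion fun d => ?_).compl
  refine (isClosed_section d.1).measurableSet.inter (MeasurableSet.inter ?_ ?_)
  · exact measurable_F d.1 hA.isClosed.measurableSet
  · exact measurable_F _ hB.compl.isClosed.measurableSet

end

end Pool.Agent.TH724.TC
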