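import Mathlib
import Pool.Agent.TH724.TC.Meas

set_option autoImplicit false

open Set Filter Topology

namespace Pool.Agent.TH724.TC

/-! ## Coding a binary relation by a graph -/

/-- the vertices of the coding graph -/
inductive V : Type
  | o (n : ℕ) : V
  | i (n : ℕ) : V
  | m (n : ℕ) : V
  | a (n : ℕ) : V
  | b (n : ℕ) : V
  | c (n : ℕ) : V

/-- a code for the vertices -/
def V.code : V → ℕ × ℕ
  | .o n => (0, n)
  | .i n => (1, n)
  | .m n => (2, n)
  | .a n => (3, n)
  | .b n => (4, n)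
  | .c n => (5, n)

lemma V.code_injective : Function.Injective V.code := by
  intro x y h
  cases x <;> cases y <;> simp_all [V.code]

instance : Countable V := V.code_injective.countable

instance : Infinite V := Infinite.of_injective V.o fun _ _ h => by simpa using h

/-- the coding graph -/
def adj (q : ℕ → ℕ → Bool) : V → V → Bool
  | .o n, .i k => q n k
  | .i k, .o n => q n k
  | .o n, .m k => decide (n = k)
  | .m k, .o n => decide (n = k)
  | .m n, .i k => decide (n = k)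
  | .i k, .m n => decide (n = k)
  | .o n, .a k => decide (n = k)
  | .a k, .o n => decide (n = k)
  | .i n, .b k => decide (n = k)
  | .b k, .i n => decide (n = k)
  | .i n, .c k => decide (n = k)
  | .c k, .i n => decide (n = k)
  | _, _ => false

lemma adj_symm (q : ℕ → ℕ → Bool) (x y : V) : adj q x y = adj q y x := by
  cases x <;> cases y <;> rfl

lemma adj_irrefl (q : ℕ → ℕ → Bool) (x : V) : adj q x x = false := by
  cases x <;> rfl

/-- vertices with exactly one neighbour -/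
def Leaf (q : ℕ → ℕ → Bool) (x : V) : Prop := ∃! y, adj q x y = true

lemma leaf_a (q : ℕ → ℕ → Bool) (n : ℕ) : Leaf q (.a n) := by
  refine ⟨.o n, by simp [adj], fun y hy => ?_⟩
  cases y <;> simp_all [adj]

lemma leaf_b (q : ℕ → ℕ → Bool) (n : ℕ) : Leaf q (.b n) := by
  refine ⟨.i n, by simp [adj], fun y hy => ?_⟩
  cases y <;> simp_all [adj]

lemma leaf_c (q : ℕ → ℕ → Bool) (n : ℕ) : Leaf q (.c n) := by
  refine ⟨.i n, by simp [adj], fun y hy => ?_⟩
  cases y <;> simp_all [adj]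

lemma not_leaf_o (q : ℕ → ℕ → Bool) (n : ℕ) : ¬ Leaf q (.o n) := by
  intro h
  have := h.unique (y₁ := .m n) (y₂ := .a n) (by simp [adj]) (by simp [adj])
  simp at this

lemma not_leaf_i (q : ℕ → ℕ → Bool) (n : ℕ) : ¬ Leaf q (.i n) := by
  intro h
  have := h.unique (y₁ := .b n) (y₂ := .c n) (by simp [adj]) (by simp [adj])
  simp at this

lemma not_leaf_m (q : ℕ → ℕ → Bool) (n : ℕ) : ¬ Leaf q (.m n) := by
  intro h
  have := h.unique (y₁ := .o n) (y₂ := .i n) (by simp [adj]) (by simp [adj])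
  simp at this

/-- exactly one leaf neighbour -/
def T1 (q : ℕ → ℕ → Bool) (x : V) : Prop := ∃! y, adj q x y = true ∧ Leaf q y

/-- at least two leaf neighbours -/
def T2 (q : ℕ → ℕ → Bool) (x : V) : Prop :=
  ∃ y y', y ≠ y' ∧ (adj q x y = true ∧ Leaf q y) ∧ (adj q x y' = true ∧ Leaf q y')

/-- neither a leaf nor adjacent to a leaf -/
def T3 (q : ℕ → ℕ → Bool) (x : V) : Prop := ¬ Leaf q x ∧ ¬ ∃ y, adj q x y = true ∧ Leaf q y

lemma T1_iff (q : ℕ → ℕ → Bool) (x : V) : T1 q x ↔ ∃ n, x = .o n := by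
  have lo := not_leaf_o q
  have li := not_leaf_i q
  have lm := not_leaf_m q
  constructor
  · rintro ⟨y, ⟨h1, h2⟩, h3⟩
    cases x with
    | o n => exact ⟨n, rfl⟩
    | i n =>
      have e1 := h3 (.b n) ⟨by simp [adj], leaf_b q n⟩
      have e2 := h3 (.c n) ⟨by simp [adj], leaf_c q n⟩
      rw [← e2] at e1
      simp at e1
    | m n => cases y <;> simp_all [adj]
    | a n => cases y <;> simp_all [adj]
    | b n => cases y <;> simp_all [adj]
    | c n => cases y <;> simp_all [adj]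
  · rintro ⟨n, rfl⟩
    refine ⟨.a n, ⟨by simp [adj], leaf_a q n⟩, ?_⟩
    rintro y ⟨h1, h2⟩
    cases y <;> simp_all [adj]

lemma T2_iff (q : ℕ → ℕ → Bool) (x : V) : T2 q x ↔ ∃ n, x = .i n := by
  have lo := not_leaf_o q
  have li := not_leaf_i q
  have lm := not_leaf_m q
  constructor
  · rintro ⟨y, y', h0, ⟨h1, h2⟩, ⟨h3, h4⟩⟩
    cases x with
    | o n => cases y <;> cases y' <;> simp_all [adj]
    | i n => exact ⟨n, rfl⟩
    | m n => cases y <;> simp_all [adj]
    | a n => cases y <;> simp_all [adj]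
    | b n => cases y <;> simp_all [adj]
    | c n => cases y <;> simp_all [adj]
  · rintro ⟨n, rfl⟩
    exact ⟨.b n, .c n, by simp, ⟨by simp [adj], leaf_b q n⟩, ⟨by simp [adj], leaf_c q n⟩⟩

lemma T3_iff (q : ℕ → ℕ → Bool) (x : V) : T3 q x ↔ ∃ n, x = .m n := by
  have lo := not_leaf_o q
  have li := not_leaf_i q
  have lm := not_leaf_m q
  constructor
  · rintro ⟨h1, h2⟩
    cases x with
    | o n => exact absurd ⟨.a n, by simp [adj], leaf_a q n⟩ h2
    | i n => exact absurd ⟨.b n, by simp [adj], leaf_b q n⟩ h2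
    | m n => exact ⟨n, rfl⟩
    | a n => exact absurd (leaf_a q n) h1
    | b n => exact absurd (leaf_b q n) h1
    | c n => exact absurd (leaf_c q n) h1
  · rintro ⟨n, rfl⟩
    refine ⟨lm n, ?_⟩
    rintro ⟨y, h1, h2⟩
    cases y <;> simp_all [adj]

section

variable {q q' : ℕ → ℕ → Bool} (φ : V ≃ V) (hφ : ∀ x y, adj q' (φ x) (φ y) = adj q x y)

include hφ

lemma leaf_iso (x : V) : Leaf q' (φ x) ↔ Leaf q x := by
  constructor
  · rintro ⟨y, hy, hu⟩
    refine ⟨φ.symm y, ?_, fun z hz => ?_⟩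
    · change adj q x (φ.symm y) = true
      rw [← hφ, φ.apply_symm_apply]
      exact hy
    · have := hu (φ z) (by change adj q' (φ x) (φ z) = true; rw [hφ]; exact hz)
      rw [← this, φ.symm_apply_apply]
  · rintro ⟨y, hy, hu⟩
    refine ⟨φ y, ?_, fun z hz => ?_⟩
    · change adj q' (φ x) (φ y) = true
      rw [hφ]
      exact hy
    · have := hu (φ.symm z) (by
        change adj q x (φ.symm z) = true
        rw [← hφ, φ.apply_symm_apply]
        exact hz)
      rw [← this, φ.apply_symm_apply]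

lemma T1_iso {x : V} (h : T1 q x) : T1 q' (φ x) := by
  obtain ⟨y, ⟨h1, h2⟩, hu⟩ := h
  refine ⟨φ y, ⟨by rw [hφ]; exact h1, (leaf_iso φ hφ y).2 h2⟩, ?_⟩
  rintro z ⟨h3, h4⟩
  have := hu (φ.symm z) ⟨by rw [← hφ, φ.apply_symm_apply]; exact h3, by
    rw [← leaf_iso φ hφ, φ.apply_symm_apply]; exact h4⟩
  rw [← this, φ.apply_symm_apply]

lemma T2_iso {x : V} (h : T2 q x) : T2 q' (φ x) := by
  obtain ⟨y, y', h0, ⟨h1, h2⟩, ⟨h3, h4⟩⟩ := h
  exact ⟨φ y, φ y', fun h => h0 (φ.injective h), ⟨by rw [hφ]; exact h1, (leaf_iso φ hφ y).2 h2⟩,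
    ⟨by rw [hφ]; exact h3, (leaf_iso φ hφ y').2 h4⟩⟩

lemma T3_iso {x : V} (h : T3 q x) : T3 q' (φ x) := by
  obtain ⟨h1, h2⟩ := h
  refine ⟨fun h => h1 ((leaf_iso φ hφ x).1 h), ?_⟩
  rintro ⟨y, h3, h4⟩
  exact h2 ⟨φ.symm y, by rw [← hφ, φ.apply_symm_apply]; exact h3, by
    rw [← leaf_iso φ hφ, φ.apply_symm_apply]; exact h4⟩

lemma exists_f : ∃ f : ℕ → ℕ, (∀ n, φ (.o n) = .o (f n)) ∧ (∀ n, φ (.i n) = .i (f n)) := by
  have h1 : ∀ n, ∃ k, φ (.o n) = .o k := fun n =>
    (T1_iff q' _).1 (T1_iso φ hφ ((T1_iff q _).2 ⟨n, rfl⟩))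
  have h2 : ∀ n, ∃ k, φ (.i n) = .i k := fun n =>
    (T2_iff q' _).1 (T2_iso φ hφ ((T2_iff q _).2 ⟨n, rfl⟩))
  have h3 : ∀ n, ∃ k, φ (.m n) = .m k := fun n =>
    (T3_iff q' _).1 (T3_iso φ hφ ((T3_iff q _).2 ⟨n, rfl⟩))
  choose f hf using h1
  choose g hg using h2
  choose k hk using h3
  refine ⟨f, hf, fun n => ?_⟩
  have e1 := hφ (.o n) (.m n)
  have e2 := hφ (.m n) (.i n)
  rw [hf, hk] at e1
  rw [hk, hg] at e2
  have e3 : f n = k n := by simpa [adj] using e1
  have e4 : k n = g n := by simpa [adj] using e2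
  rw [hg, e3, e4]

end

/-- Isomorphic coding graphs come from isomorphic binary relations. -/
theorem rel_iso_of_adj {q q' : ℕ → ℕ → Bool} (φ : V ≃ V)
    (hφ : ∀ x y, adj q' (φ x) (φ y) = adj q x y) :
    ∃ σ : Equiv.Perm ℕ, ∀ i j, q' (σ i) (σ j) = q i j := by
  have hφ' : ∀ x y, adj q (φ.symm x) (φ.symm y) = adj q' x y := by
    intro x y
    rw [← hφ, φ.apply_symm_apply, φ.apply_symm_apply]
  obtain ⟨f, hf1, hf2⟩ := exists_f φ hφ
  obtain ⟨g, hg1, hg2⟩ := exists_f φ.symm hφ'
  refine ⟨⟨f, g, fun n => ?_, fun n => ?_⟩, fun i j => ?_⟩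
  · have := φ.symm_apply_apply (.o n)
    rw [hf1, hg1] at this
    simpa using this
  · have := φ.apply_symm_apply (.o n)
    rw [hg1, hf1] at this
    simpa using this
  · have := hφ (.o i) (.i j)
    rw [hf1, hf2] at this
    exact this

/-- Isomorphic binary relations have isomorphic coding graphs. -/
theorem adj_of_rel_iso {q q' : ℕ → ℕ → Bool} (σ : Equiv.Perm ℕ)
    (h : ∀ i j, q' (σ i) (σ j) = q i j) :
    ∃ φ : V ≃ V, ∀ x y, adj q' (φ x) (φ y) = adj q x y := by
  let F : (ℕ → ℕ) → V → V := fun f x => match x with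
    | .o n => .o (f n)
    | .i n => .i (f n)
    | .m n => .m (f n)
    | .a n => .a (f n)
    | .b n => .b (f n)
    | .c n => .c (f n)
  refine ⟨⟨F σ, F σ.symm, fun x => ?_, fun x => ?_⟩, fun x y => ?_⟩
  · cases x <;> simp [F]
  · cases x <;> simp [F]
  · change adj q' (F σ x) (F σ y) = adj q x y
    cases x <;> cases y <;> simp [F, adj, h]

/-! ## Stone duality for the Cantor space -/

section Stone

open TopologicalSpace (Clopens)

lemma clopen_sep {x y : C} (h : ∀ A : Clopens C, x ∈ A → y ∈ A) : x = y := by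
  by_contra hne
  have h1 : IsClosed ({x} : Set C) := isClosed_singleton
  obtain ⟨D, hD, hxD, hDU⟩ := exists_clopen_of_closed_subset_open h1
    (isClosed_singleton (x := y)).isOpen_compl (by
      intro z hz
      rw [mem_singleton_iff.1 hz]
      exact hne)
  exact hDU (h ⟨D, hD⟩ (hxD rfl)) rfl

lemma mem_compl' (A : Clopens C) (x : C) : x ∈ Aᶜ ↔ x ∉ A := Iff.rfl

lemma exists_point (φ : Clopens C ≃o Clopens C) (x : C) : ∃ y, ∀ A : Clopens C, x ∈ A ↔ y ∈ φ A := by
  have hne : (⋂ A : {A : Clopens C // x ∈ A}, (φ A.1 : Set C)).Nonempty := by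
    have : Nonempty {A : Clopens C // x ∈ A} := ⟨⟨⊤, trivial⟩⟩
    apply IsCompact.nonempty_iInter_of_directed_nonempty_isCompact_isClosed
    · rintro ⟨A, hA⟩ ⟨B, hB⟩
      refine ⟨⟨A ⊓ B, ⟨hA, hB⟩⟩, ?_, ?_⟩
      · exact φ.monotone inf_le_left
      · exact φ.monotone inf_le_right
    · rintro ⟨A, hA⟩
      have h1 : φ A ≠ ⊥ := by
        intro h
        have : A = ⊥ := by
          rw [← φ.map_bot] at h
          exact φ.injective h
        rw [this] at hA
        exact hA
      by_contra h2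
      rw [not_nonempty_iff_eq_empty] at h2
      exact h1 (SetLike.coe_injective h2)
    · exact fun A => (φ A.1).isClopen.isClosed.isCompact
    · exact fun A => (φ A.1).isClopen.isClosed
  obtain ⟨y, hy⟩ := hne
  rw [mem_iInter] at hy
  refine ⟨y, fun A => ⟨fun h => hy ⟨A, h⟩, fun h => ?_⟩⟩
  by_contra h1
  have h2 : y ∈ φ Aᶜ := hy ⟨Aᶜ, h1⟩
  have h3 : φ Aᶜ = (φ A)ᶜ := (φ.isCompl isCompl_compl).compl_eq.symm
  rw [h3] at h2
  exact h2 h

/-- Every automorphism of the algebra of clopen sets is induced by a homeomorphism. -/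
theorem stone (φ : Clopens C ≃o Clopens C) : ∃ h : C ≃ₜ C, ∀ (A : Clopens C) x, h x ∈ φ A ↔ x ∈ A := by
  choose h hh using exists_point φ
  choose k hk using exists_point φ.symm
  have h1 : ∀ x, k (h x) = x := by
    intro x
    symm
    apply clopen_sep
    intro A hA
    rw [hh x A, hk (h x) (φ A), φ.symm_apply_apply] at hA
    exact hA
  have h2 : ∀ y, h (k y) = y := by
    intro y
    symm
    apply clopen_sep
    intro A hA
    rw [hk y A, hh (k y) (φ.symm A), φ.apply_symm_apply] at hA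
    exact hA
  have hcont : ∀ (ψ : Clopens C ≃o Clopens C) (f : C → C),
      (∀ (x : C) (A : Clopens C), x ∈ A ↔ f x ∈ ψ A) → Continuous f := by
    intro ψ f hf
    rw [(isTopologicalBasis_isClopen (X := C)).continuous_iff]
    intro D hD
    have h3 : f ⁻¹' D = (ψ.symm ⟨D, hD⟩ : Set C) := by
      ext x
      have := hf x (ψ.symm ⟨D, hD⟩)
      rw [ψ.apply_symm_apply] at this
      exact this.symm
    rw [h3]
    exact (ψ.symm ⟨D, hD⟩).isClopen.isOpen
  exact ⟨{ toFun := h, invFun := k, left_inv := h1, right_inv := h2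
           continuous_toFun := hcont φ h hh
           continuous_invFun := hcont φ.symm k hk }, fun A x => (hh x A).symm⟩

/-- `T` maps `A` off `B` -/
def Dis (T : C ≃ₜ C) (A B : Clopens C) : Prop := MapsTo T (A : Set C) (B : Set C)ᶜ

lemma le_iff_dis (T : C ≃ₜ C) (A A' : Clopens C) : A ≤ A' ↔ ∀ B, Dis T A' B → Dis T A B := by
  constructor
  · exact fun h B hB x hx => hB (h hx)
  · intro h x hx
    by_contra hx'
    let B : Clopens C := ⟨T.symm ⁻¹' (A' : Set C)ᶜ, A'.isClopen.compl.preimage T.symm.continuous⟩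
    have h1 : Dis T A' B := by
      intro z hz hz'
      have h2 : T.symm (T z) ∉ A' := hz'
      rw [T.symm_apply_apply] at h2
      exact h2 hz
    refine h B h1 hx ?_
    change T.symm (T x) ∉ A'
    rwa [T.symm_apply_apply]

theorem conj_of_dis {T T' : C ≃ₜ C} (φ : Clopens C ≃ Clopens C)
    (hφ : ∀ A B, Dis T' (φ A) (φ B) ↔ Dis T A B) : ∃ h : C ≃ₜ C, T' = h * T * h⁻¹ := by
  let ψ : Clopens C ≃o Clopens C :=
    { φ with
      map_rel_iff' := by
        intro A A'
        change φ A ≤ φ A' ↔ A ≤ A'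
        rw [le_iff_dis T', le_iff_dis T]
        constructor
        · intro h B hB
          exact (hφ _ _).1 (h (φ B) ((hφ _ _).2 hB))
        · intro h B hB
          obtain ⟨B, rfl⟩ := φ.surjective B
          exact (hφ _ _).2 (h B ((hφ _ _).1 hB)) }
  obtain ⟨h, hh⟩ := stone ψ
  have key : ∀ x, T' (h x) = h (T x) := by
    intro x
    apply clopen_sep
    intro D hD
    by_contra h1
    obtain ⟨B, rfl⟩ := φ.surjective D
    have h2 : T x ∉ B := fun h3 => h1 ((hh B (T x)).2 h3)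
    let A : Clopens C := ⟨T ⁻¹' (B : Set C)ᶜ, B.isClopen.compl.preimage T.continuous⟩
    have h3 : Dis T A B := fun z hz => hz
    have h4 := (hφ A B).2 h3
    have h5 : h x ∈ φ A := (hh A x).2 h2
    exact h4 h5 hD
  refine ⟨h, ?_⟩
  ext1 y
  change T' y = h (T (h.symm y))
  rw [← key, h.apply_symm_apply]

theorem dis_of_conj {T T' : C ≃ₜ C} (h : C ≃ₜ C) (hT : T' = h * T * h⁻¹) :
    ∃ φ : Clopens C ≃ Clopens C, ∀ A B, Dis T' (φ A) (φ B) ↔ Dis T A B := by
  let F : (C ≃ₜ C) → Clopens C → Clopens C := fun g A =>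
    ⟨g.symm ⁻¹' (A : Set C), A.isClopen.preimage g.symm.continuous⟩
  have hF : ∀ g A, F g.symm (F g A) = A := by
    intro g A
    apply SetLike.coe_injective
    ext x
    change g.symm (g x) ∈ A ↔ x ∈ A
    rw [g.symm_apply_apply]
  refine ⟨⟨F h, F h.symm, hF h, fun A => ?_⟩, fun A B => ?_⟩
  · apply SetLike.coe_injective
    ext x
    change h (h.symm x) ∈ A ↔ x ∈ A
    rw [h.apply_symm_apply]
  · have hT' : ∀ x, T' (h x) = h (T x) := by
      intro x
      rw [hT]
      change h (T (h.symm (h x))) = _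
      rw [h.symm_apply_apply]
    constructor
    · intro h1 x hx hx'
      have h2 : h x ∈ F h A := by
        change h.symm (h x) ∈ A
        rwa [h.symm_apply_apply]
      have h3 := h1 h2
      apply h3
      rw [hT']
      change h.symm (h (T x)) ∈ B
      rwa [h.symm_apply_apply]
    · intro h1 y hy hy'
      have h2 : h.symm y ∈ A := hy
      have h3 : h.symm (T' y) ∈ B := hy'
      have h4 := h1 h2
      apply h4
      have h5 := hT' (h.symm y)
      rw [h.apply_symm_apply] at h5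
      rw [h5, h.symm_apply_apply] at h3
      exact h3

end Stone

end Pool.Agent.TH724.TC
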